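import Mathlib

/-!
# Definitions for MP_87ed0a_ag (geproci sets near a grid)
-/

open MvPolynomial

namespace Pool.Agent.H3.GP

/-- The set of points of projective 3-space represented by a finite family of vectors. -/
def pts {J : Type} (z : J → Fin 4 → ℂ) : Set (Projectivization ℂ (Fin 4 → ℂ)) :=
  {p | ∃ i, ∃ h : z i ≠ 0, p = Projectivization.mk ℂ (z i) h}

/-- The image of a set of points of projective 3-space under a linear map from `ℂ⁴` to `ℂ³`
(for a map with kernel spanned by `P` this is the projection from the point `P` to a plane). -/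
def projImage (π : (Fin 4 → ℂ) →ₗ[ℂ] (Fin 3 → ℂ)) (Z : Set (Projectivization ℂ (Fin 4 → ℂ))) :
    Set (Projectivization ℂ (Fin 3 → ℂ)) :=
  {q | ∃ p ∈ Z, ∃ h : π p.rep ≠ 0, q = Projectivization.mk ℂ (π p.rep) h}

/-- A set of points of the projective plane is the complete intersection of two curves of degrees
`a` and `b`: it is the common zero set of a form of degree `a` and a form of degree `b` and has
exactly `a * b` points (so that, by Bezout, the two curves meet transversally exactly there). -/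
def IsCI (a b : ℕ) (X : Set (Projectivization ℂ (Fin 3 → ℂ))) : Prop :=
  X.Finite ∧ X.ncard = a * b ∧
    ∃ F G : MvPolynomial (Fin 3) ℂ, F.IsHomogeneous a ∧ G.IsHomogeneous b ∧
      ∀ q : Projectivization ℂ (Fin 3 → ℂ), q ∈ X ↔ (eval q.rep F = 0 ∧ eval q.rep G = 0)

/-- `(a, b)`-geproci sets, `1 ≤ a ≤ b`: finite sets of `a * b` points of projective 3-space whose
projection from a general point `P` to a plane is a complete intersection of type `(a, b)`. -/
def IsGeproci (a b : ℕ) (Z : Set (Projectivization ℂ (Fin 4 → ℂ))) : Prop :=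
  1 ≤ a ∧ a ≤ b ∧ Z.Finite ∧ Z.ncard = a * b ∧
    ∃ D : MvPolynomial (Fin 4) ℂ, D ≠ 0 ∧
      ∀ P : Fin 4 → ℂ, eval P D ≠ 0 →
        ∀ π : (Fin 4 → ℂ) →ₗ[ℂ] (Fin 3 → ℂ), LinearMap.ker π = Submodule.span ℂ {P} →
          IsCI a b (projImage π Z)

/-- `(a, b)`-grids, `2 ≤ a ≤ b`: the points `A k ∩ B j`, where `A` consists of `a` mutually skew
lines, `B` of `b` mutually skew lines and every `A k` meets every `B j` in a single point. -/
def IsGrid (a b : ℕ) (Z : Set (Projectivization ℂ (Fin 4 → ℂ))) : Prop :=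
  2 ≤ a ∧ a ≤ b ∧ ∃ (A : Fin a → Submodule ℂ (Fin 4 → ℂ)) (B : Fin b → Submodule ℂ (Fin 4 → ℂ)),
    (∀ k, Module.finrank ℂ (A k) = 2) ∧ (∀ j, Module.finrank ℂ (B j) = 2) ∧
    (∀ k k', k ≠ k' → A k ⊓ A k' = ⊥) ∧ (∀ j j', j ≠ j' → B j ⊓ B j' = ⊥) ∧
    (∀ k j, Module.finrank ℂ (A k ⊓ B j : Submodule ℂ (Fin 4 → ℂ)) = 1) ∧
    Z = {p | ∃ k j, p.submodule = A k ⊓ B j}

/-! ### working notions -/

/-- Grids in terms of vectors (symmetric in the two directions). -/
structure GridVec (p q : ℕ) (x : Fin p → Fin q → Fin 4 → ℂ) : Prop where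
  ind : ∀ k k' j j', k ≠ k' → j ≠ j' →
    LinearIndependent ℂ ![x k j, x k j', x k' j, x k' j']
  col : ∀ k j₀ j₁ j, j₀ ≠ j₁ → x k j ∈ Submodule.span ℂ {x k j₀, x k j₁}
  row : ∀ j k₀ k₁ k, k₀ ≠ k₁ → x k j ∈ Submodule.span ℂ {x k₀ j, x k₁ j}

/-- There is a nonzero ternary form of degree `k` which has degree `< q` in the second variable
and vanishes at the given vectors. -/
def HasForm (k q : ℕ) {J : Type} (y : J → Fin 3 → ℂ) : Prop :=
  ∃ f : MvPolynomial (Fin 3) ℂ, f ≠ 0 ∧ f.IsHomogeneous k ∧ f.degreeOf 1 < q ∧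
    ∀ j, eval (y j) f = 0

/-- The same for the projections of the family `x` from a general point. -/
def GenForm (k q : ℕ) {J : Type} (x : J → Fin 4 → ℂ) : Prop :=
  ∃ D : MvPolynomial (Fin 4) ℂ, D ≠ 0 ∧
    ∀ P : Fin 4 → ℂ, eval P D ≠ 0 →
      ∀ π : (Fin 4 → ℂ) →ₗ[ℂ] (Fin 3 → ℂ), LinearMap.ker π = Submodule.span ℂ {P} →
        HasForm k q (fun j => π (x j))

/-- The linear map `x ↦ (τ x₀ - x₁, x₂ / δ - α x₀, x₃ / δ - β x₀)`. -/
noncomputable def wp (τ α β δ : ℂ) : (Fin 4 → ℂ) →ₗ[ℂ] (Fin 3 → ℂ) where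
  toFun x := ![τ * x 0 - x 1, x 2 / δ - α * x 0, x 3 / δ - β * x 0]
  map_add' x y := by
    ext i
    fin_cases i <;> simp [Pi.add_apply] <;> ring
  map_smul' c x := by
    ext i
    fin_cases i <;> simp [Pi.smul_apply, smul_eq_mul] <;> ring

/-- The value at `(u, η, 1)` of the form with coefficient array `c`. -/
noncomputable def av (k q : ℕ) (c : Fin (k + 1) → Fin q → ℂ) (u η : ℂ) : ℂ :=
  ∑ i : Fin (k + 1), ∑ m : Fin q, c i m * u ^ (i : ℕ) * η ^ (m : ℕ)

end Pool.Agent.H3.GP
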