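import Mathlib
import Pool.Agent.H3.GP.Defs

/-!
# ADP (MP_87ed0a_ag): adapted coordinates at the line `k0`

PROOF. By `h0.col` write `x0 k1 j = a j • x0 k1 j0 + b j • x0 k1 j1`
(`Submodule.mem_span_pair`).  By `h0.ind` (with `k0 k1`) two different vectors `x0 k1 j`,
`x0 k1 j'` are linearly independent, so the pairs `(a j, b j)` are nonzero and pairwise not
proportional.  Choose `s : ℂ` with `b j - a j * s ≠ 0` for all `j` (each `j` excludes at most one
`s`).  Put `e3 = x0 k1 j0 + s • x0 k1 j1`, `e4 = x0 k1 j1`,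
`M t = ` the matrix with columns `x t k0 j0, x t k0 j1, e3, e4`
(`Matrix.of (fun i l => ![x t k0 j0 i, x t k0 j1 i, e3 i, e4 i] l)`), `M0` the same with `x0`.
`det M0 ≠ 0` by `h0.ind k0 k1 j0 j1` (columns `x0 k0 j0, x0 k0 j1, e3, e4` linearly independent).
`det (M t) → det M0`, so `IsUnit (det (M t))` eventually.  Put `X t k j = (M t)⁻¹.mulVec (x t k j)`,
`X0 k j = M0⁻¹.mulVec (x0 k j)`.  `(M t)⁻¹ → M0⁻¹` entrywise
(`Matrix.inv_def`: `Ring.inverse det • adjugate`; entries of the adjugate are polynomials) gives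
the convergence.  `X t k0 j0 = ![1,0,0,0]` because `(M t).mulVec ![1,0,0,0] = x t k0 j0`, etc.
`X0 k0 j`: `x0 k0 j ∈ span {x0 k0 j0, x0 k0 j1}` (`h0.col`), so its coordinates 2, 3 vanish; it is
nonzero as `x0 k0 j ≠ 0` (`ind`, choose some `j' ≠ j`: `j0` or `j1`).
`X0 k1 j = ![0, 0, a j, b j - a j * s]`; put `η j = a j / (b j - a j * s)`: injective because the
pairs are not proportional.
For `k ≠ k0`: `x0 k j ∈ span {x0 k0 j, x0 k1 j}` (`h0.row`), say `λ • x0 k0 j + μ • x0 k1 j`, with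
`μ ≠ 0` because `x0 k j`, `x0 k0 j` are linearly independent (`ind`).  So
`X0 k j = λ • X0 k0 j + μ • X0 k1 j`: third and fourth coordinates are `μ` times those of
`X0 k1 j`, hence `X0 k j 3 ≠ 0`, `X0 k j 2 = η j * X0 k j 3`, and
`X0 k j i / X0 k j 3 = (λ / (μ * X0 k1 j 3)) * X0 k0 j i + X0 k1 j i / X0 k1 j 3` for `i = 0, 1`.
For two indices `k ≠ k'` different from `k0` the difference is `ν * X0 k0 j i`,
`ν = λ / (μ * X0 k1 j 3) - λ' / (μ' * X0 k1 j 3)`; `ν ≠ 0`, otherwise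
`μ'⁻¹ • x0 k' j = μ⁻¹ • x0 k j`, contradicting the independence of `x0 k j`, `x0 k' j` (`ind`).
-/

open Filter Topology

namespace Pool.Agent.H3.GP

private theorem ADP_pair {p q : ℕ} {x0 : Fin p → Fin q → Fin 4 → ℂ} (h0 : GridVec p q x0)
    {k k' : Fin p} (hk : k ≠ k') {j j' : Fin q} (hj : j ≠ j') {c c' : ℂ}
    (h : c • x0 k j = c' • x0 k' j) : c = 0 ∧ c' = 0 := by
  have h1 := Fintype.linearIndependent_iff.1 (h0.ind k k' j j' hk hj) ![c, 0, -c', 0] (by
    simp [Fin.sum_univ_four, h])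
  exact ⟨by simpa using h1 0, by simpa using h1 2⟩

private theorem ADP_pair2 {p q : ℕ} {x0 : Fin p → Fin q → Fin 4 → ℂ} (h0 : GridVec p q x0)
    {k k' : Fin p} (hk : k ≠ k') {j j' : Fin q} (hj : j ≠ j') {c c' : ℂ}
    (h : c • x0 k j = c' • x0 k j') : c = 0 ∧ c' = 0 := by
  have h1 := Fintype.linearIndependent_iff.1 (h0.ind k k' j j' hk hj) ![c, -c', 0, 0] (by
    simp [Fin.sum_univ_four, h])
  exact ⟨by simpa using h1 0, by simpa using h1 1⟩

/-- the matrix with columns `u v e3 e4` -/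
private def ADP_mat (u v e3 e4 : Fin 4 → ℂ) : Matrix (Fin 4) (Fin 4) ℂ :=
  Matrix.of fun i l => (![u i, v i, e3 i, e4 i] : Fin 4 → ℂ) l

private theorem ADP_mulVec (u v e3 e4 : Fin 4 → ℂ) (a b c d : ℂ) :
    (ADP_mat u v e3 e4).mulVec ![a, b, c, d] = a • u + b • v + c • e3 + d • e4 := by
  ext i
  simp [ADP_mat, Matrix.mulVec, dotProduct, Fin.sum_univ_four]
  ring

private theorem ADP_det {u v e3 e4 : Fin 4 → ℂ} (h : LinearIndependent ℂ ![u, v, e3, e4]) :
    (ADP_mat u v e3 e4).det ≠ 0 := by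
  intro hdet
  obtain ⟨w, hw0, hw⟩ := Matrix.exists_mulVec_eq_zero_iff.2 hdet
  apply hw0
  have hww : w = ![w 0, w 1, w 2, w 3] := by
    ext i; fin_cases i <;> rfl
  rw [hww, ADP_mulVec] at hw
  have h1 := Fintype.linearIndependent_iff.1 h w (by
    simpa [Fin.sum_univ_four] using hw)
  ext i
  simpa using h1 i

private theorem ADP_inv {M : Matrix (Fin 4) (Fin 4) ℂ} (hM : IsUnit M.det) {x v : Fin 4 → ℂ}
    (h : M.mulVec v = x) : M⁻¹.mulVec x = v := by
  rw [← h, Matrix.mulVec_mulVec, Matrix.nonsing_inv_mul _ hM, Matrix.one_mulVec]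

private theorem ADP_t1 {ι : Type} {U : Filter ι} {M : ι → Matrix (Fin 4) (Fin 4) ℂ}
    {M0 : Matrix (Fin 4) (Fin 4) ℂ} (hM : ∀ i l, Tendsto (fun t => M t i l) U (𝓝 (M0 i l))) :
    Tendsto M U (𝓝 M0) :=
  tendsto_pi_nhds.2 fun i => tendsto_pi_nhds.2 fun l => hM i l

private theorem ADP_t2 {ι : Type} {U : Filter ι} {M : ι → Matrix (Fin 4) (Fin 4) ℂ}
    {M0 : Matrix (Fin 4) (Fin 4) ℂ} (hM : Tendsto M U (𝓝 M0)) :
    Tendsto (fun t => (M t).det) U (𝓝 M0.det) :=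
  (Continuous.matrix_det (continuous_id (X := Matrix (Fin 4) (Fin 4) ℂ))).tendsto M0 |>.comp hM

private theorem ADP_t3 {ι : Type} {U : Filter ι} {M : ι → Matrix (Fin 4) (Fin 4) ℂ}
    {M0 : Matrix (Fin 4) (Fin 4) ℂ} (hM : Tendsto M U (𝓝 M0)) :
    Tendsto (fun t => (M t).adjugate) U (𝓝 M0.adjugate) :=
  (Continuous.matrix_adjugate (continuous_id (X := Matrix (Fin 4) (Fin 4) ℂ))).tendsto M0 |>.comp hM

private theorem ADP_t4 {ι : Type} {U : Filter ι} {M : ι → Matrix (Fin 4) (Fin 4) ℂ}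
    {M0 : Matrix (Fin 4) (Fin 4) ℂ} (hM : Tendsto M U (𝓝 M0)) (h0 : M0.det ≠ 0)  :
    Tendsto (fun t => ((M t).det)⁻¹ • (M t).adjugate) U
        (𝓝 ((M0.det)⁻¹ • M0.adjugate)) := ((ADP_t2 hM).inv₀ h0).smul (ADP_t3 hM)

private theorem ADP_t5 (M0 : Matrix (Fin 4) (Fin 4) ℂ) : M0⁻¹ = (M0.det)⁻¹ • M0.adjugate := by
  rw [Matrix.inv_def, Ring.inverse_eq_inv']

private theorem ADP_tendsto {ι : Type} {U : Filter ι} {M : ι → Matrix (Fin 4) (Fin 4) ℂ}
    {M0 : Matrix (Fin 4) (Fin 4) ℂ} (hM : Tendsto M U (𝓝 M0)) (h0 : M0.det ≠ 0)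
    {x : ι → Fin 4 → ℂ} {x0 : Fin 4 → ℂ} (hx : Tendsto x U (𝓝 x0)) :
    Tendsto (fun t => (M t)⁻¹.mulVec (x t)) U (𝓝 (M0⁻¹.mulVec x0)) := by
  have h1 := ADP_t4 hM h0
  have h2 : Tendsto (fun t => (M t)⁻¹) U (𝓝 M0⁻¹) := by
    rw [ADP_t5 M0]
    exact h1.congr fun t => (ADP_t5 (M t)).symm
  rw [tendsto_pi_nhds]
  intro i
  simp only [Matrix.mulVec, dotProduct]
  refine tendsto_finsetSum _ fun l _ => ?_
  exact ((tendsto_pi_nhds.1 ((tendsto_pi_nhds.1 h2) i)) l).mul ((tendsto_pi_nhds.1 hx) l)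

theorem ADP {ι : Type} (U : Ultrafilter ι) (p q : ℕ) (x0 : Fin p → Fin q → Fin 4 → ℂ)
    (h0 : GridVec p q x0) (x : ι → Fin p → Fin q → Fin 4 → ℂ)
    (hx : ∀ k j, Tendsto (fun t => x t k j) U (𝓝 (x0 k j)))
    (k0 k1 : Fin p) (hk : k0 ≠ k1) (j0 j1 : Fin q) (hj : j0 ≠ j1) :
    ∃ (M : ι → Matrix (Fin 4) (Fin 4) ℂ) (X : ι → Fin p → Fin q → Fin 4 → ℂ)
      (X0 : Fin p → Fin q → Fin 4 → ℂ) (η : Fin q → ℂ),
      (∀ᶠ t in (U : Filter ι), IsUnit (M t).det ∧ (∀ k j, (M t).mulVec (X t k j) = x t k j) ∧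
        X t k0 j0 = ![1, 0, 0, 0] ∧ X t k0 j1 = ![0, 1, 0, 0]) ∧
      (∀ k j, Tendsto (fun t => X t k j) U (𝓝 (X0 k j))) ∧
      (∀ j, X0 k0 j 2 = 0 ∧ X0 k0 j 3 = 0) ∧ (∀ j, X0 k0 j ≠ 0) ∧
      Function.Injective η ∧
      (∀ k, k ≠ k0 → ∀ j, X0 k j 3 ≠ 0 ∧ X0 k j 2 = η j * X0 k j 3) ∧
      (∀ j k k', k ≠ k0 → k' ≠ k0 → k ≠ k' → ∃ ν : ℂ, ν ≠ 0 ∧
        X0 k j 0 / X0 k j 3 - X0 k' j 0 / X0 k' j 3 = ν * X0 k0 j 0 ∧
        X0 k j 1 / X0 k j 3 - X0 k' j 1 / X0 k' j 3 = ν * X0 k0 j 1) := by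
  have hother : ∀ j : Fin q, ∃ j', j ≠ j' := by
    intro j
    by_cases h : j = j0
    · exact ⟨j1, by rw [h]; exact hj⟩
    · exact ⟨j0, h⟩
  -- coordinates on the line `k1`
  have hab : ∀ j, ∃ a b : ℂ, a • x0 k1 j0 + b • x0 k1 j1 = x0 k1 j := fun j =>
    Submodule.mem_span_pair.1 (h0.col k1 j0 j1 j hj)
  choose a b hab using hab
  have hdet : ∀ j j', j ≠ j' → a j * b j' - a j' * b j ≠ 0 := by
    intro j j' hjj h
    have h1 : a j' • x0 k1 j = a j • x0 k1 j' := by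
      rw [← hab j, ← hab j', smul_add, smul_add, smul_smul, smul_smul, smul_smul, smul_smul,
        mul_comm (a j') (a j), show a j' * b j = a j * b j' by linear_combination -h]
    have h2 := ADP_pair2 h0 hk.symm hjj h1
    have h3 : b j' • x0 k1 j = b j • x0 k1 j' := by
      rw [← hab j, ← hab j', smul_add, smul_add, smul_smul, smul_smul, smul_smul, smul_smul,
        show b j' * a j = b j * a j' by linear_combination h, mul_comm (b j') (b j)]
    have h4 := ADP_pair2 h0 hk.symm hjj h3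
    have h5 : x0 k1 j = 0 := by rw [← hab j, h2.2, h4.2]; simp
    have h6 := ADP_pair2 h0 hk.symm hjj (c := 1) (c' := 0) (by simp [h5])
    exact one_ne_zero h6.1
  have hab0 : ∀ j, a j = 0 → b j ≠ 0 := by
    intro j ha hb
    obtain ⟨j', hj'⟩ := hother j
    exact hdet j j' hj' (by rw [ha, hb]; ring)
  obtain ⟨s, hs⟩ : ∃ s : ℂ, ∀ j, b j - a j * s ≠ 0 := by
    obtain ⟨s, hs⟩ := Infinite.exists_notMem_finset (Finset.univ.image fun j => b j / a j)
    refine ⟨s, fun j h => ?_⟩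
    by_cases ha : a j = 0
    · exact hab0 j ha (by rw [ha] at h; simpa using h)
    · apply hs
      rw [Finset.mem_image]
      exact ⟨j, Finset.mem_univ _, by field_simp; linear_combination h⟩
  set e3 : Fin 4 → ℂ := x0 k1 j0 + s • x0 k1 j1 with he3
  set e4 : Fin 4 → ℂ := x0 k1 j1 with he4
  set M : ι → Matrix (Fin 4) (Fin 4) ℂ := fun t => ADP_mat (x t k0 j0) (x t k0 j1) e3 e4 with hMdef
  set M0 : Matrix (Fin 4) (Fin 4) ℂ := ADP_mat (x0 k0 j0) (x0 k0 j1) e3 e4 with hM0def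
  have hM0 : M0.det ≠ 0 := by
    apply ADP_det
    rw [Fintype.linearIndependent_iff]
    intro g hg
    have h1 := Fintype.linearIndependent_iff.1 (h0.ind k0 k1 j0 j1 hk hj)
      ![g 0, g 1, g 2, g 2 * s + g 3] (by
        simp only [Fin.sum_univ_four] at hg ⊢
        rw [← hg]
        simp only [Matrix.cons_val_zero, Matrix.cons_val_one, Matrix.cons_val, he3, he4]
        module)
    have h2 : g 0 = 0 := by simpa using h1 0
    have h3 : g 1 = 0 := by simpa using h1 1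
    have h4 : g 2 = 0 := by simpa using h1 2
    have h5 : g 2 * s + g 3 = 0 := by simpa using h1 3
    rw [h4, zero_mul, zero_add] at h5
    intro i
    fin_cases i
    · exact h2
    · exact h3
    · exact h4
    · exact h5
  have hMt : Tendsto M U (𝓝 M0) := by
    refine ADP_t1 fun i l => ?_
    fin_cases l
    · exact (tendsto_pi_nhds.1 (hx k0 j0)) i
    · exact (tendsto_pi_nhds.1 (hx k0 j1)) i
    · exact tendsto_const_nhds
    · exact tendsto_const_nhds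
  have hdetev : ∀ᶠ t in (U : Filter ι), (M t).det ≠ 0 := by
    exact (ADP_t2 hMt).eventually_ne hM0
  set X : ι → Fin p → Fin q → Fin 4 → ℂ := fun t k j => (M t)⁻¹.mulVec (x t k j) with hXdef
  set X0 : Fin p → Fin q → Fin 4 → ℂ := fun k j => M0⁻¹.mulVec (x0 k j) with hX0def
  have hM0u : IsUnit M0.det := isUnit_iff_ne_zero.2 hM0
  -- coordinates of the limit
  have hXk0 : ∀ j, ∃ α β : ℂ, X0 k0 j = ![α, β, 0, 0] := by
    intro j
    obtain ⟨α, β, hαβ⟩ := Submodule.mem_span_pair.1 (h0.col k0 j0 j1 j hj)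
    refine ⟨α, β, ADP_inv hM0u ?_⟩
    rw [hM0def, ADP_mulVec, ← hαβ]
    module
  have hXk1 : ∀ j, X0 k1 j = ![0, 0, a j, b j - a j * s] := by
    intro j
    refine ADP_inv hM0u ?_
    rw [hM0def, ADP_mulVec, ← hab j, he3, he4]
    module
  have hX0ne : ∀ k j, X0 k j ≠ 0 := by
    intro k j h
    have h1 : x0 k j = 0 := by
      have h2 : M0.mulVec (X0 k j) = x0 k j := by
        rw [hX0def]
        simp only [Matrix.mulVec_mulVec, Matrix.mul_nonsing_inv _ hM0u, Matrix.one_mulVec]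
      rw [← h2, h, Matrix.mulVec_zero]
    obtain ⟨j', hj'⟩ := hother j
    have hother2 : ∃ k', k ≠ k' := by
      by_cases hh : k = k0
      · exact ⟨k1, by rw [hh]; exact hk⟩
      · exact ⟨k0, hh⟩
    obtain ⟨k', hk'⟩ := hother2
    have h6 := ADP_pair2 h0 hk' hj' (c := 1) (c' := 0) (by simp [h1])
    exact one_ne_zero h6.1
  -- other lines
  have hrow : ∀ k, k ≠ k0 → ∀ j, ∃ l m : ℂ, m ≠ 0 ∧ X0 k j = l • X0 k0 j + m • X0 k1 j ∧
      x0 k j = l • x0 k0 j + m • x0 k1 j := by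
    intro k hkk j
    obtain ⟨l, m, hlm⟩ := Submodule.mem_span_pair.1 (h0.row j k0 k1 k hk)
    refine ⟨l, m, ?_, ?_, hlm.symm⟩
    · intro hm
      obtain ⟨j', hj'⟩ := hother j
      have h1 := ADP_pair h0 hkk hj' (c := 1) (c' := l) (by
        rw [← hlm, hm]; simp)
      exact one_ne_zero h1.1
    · simp only [hX0def]
      rw [← hlm, Matrix.mulVec_add, Matrix.mulVec_smul, Matrix.mulVec_smul]
  refine ⟨M, X, X0, fun j => a j / (b j - a j * s), ?_, ?_, ?_, fun j => hX0ne k0 j, ?_, ?_, ?_⟩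
  · filter_upwards [hdetev] with t ht
    have hu : IsUnit (M t).det := isUnit_iff_ne_zero.2 ht
    refine ⟨hu, fun k j => ?_, ADP_inv hu ?_, ADP_inv hu ?_⟩
    · simp only [hXdef, Matrix.mulVec_mulVec, Matrix.mul_nonsing_inv _ hu, Matrix.one_mulVec]
    · rw [hMdef, ADP_mulVec]
      simp
    · rw [hMdef, ADP_mulVec]
      simp
  · intro k j
    exact ADP_tendsto hMt hM0 (hx k j)
  · intro j
    obtain ⟨α, β, h⟩ := hXk0 j
    rw [h]
    exact ⟨rfl, rfl⟩
  · intro j j' hjj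
    by_contra hne
    have h1 : a j / (b j - a j * s) = a j' / (b j' - a j' * s) := hjj
    rw [div_eq_div_iff (hs j) (hs j')] at h1
    exact hdet j j' hne (by linear_combination h1)
  · intro k hkk j
    obtain ⟨l, m, hm, h1, -⟩ := hrow k hkk j
    obtain ⟨α, β, h2⟩ := hXk0 j
    have h3 : X0 k j 3 = m * (b j - a j * s) := by
      rw [h1, hXk1 j, h2]; simp
    have h4 : X0 k j 2 = m * a j := by
      rw [h1, hXk1 j, h2]; simp
    refine ⟨?_, ?_⟩
    · rw [h3]; exact mul_ne_zero hm (hs j)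
    · rw [h3, h4]
      have := hs j
      field_simp
  · intro j k k' hkk hkk' hne
    obtain ⟨l, m, hm, h1, h1'⟩ := hrow k hkk j
    obtain ⟨l', m', hm', h2, h2'⟩ := hrow k' hkk' j
    obtain ⟨α, β, h3⟩ := hXk0 j
    have hsj := hs j
    have e1 : X0 k j 3 = m * (b j - a j * s) := by
      rw [h1, hXk1 j, h3]; simp
    have e2 : X0 k' j 3 = m' * (b j - a j * s) := by
      rw [h2, hXk1 j, h3]; simp
    have e3' : X0 k j 0 = l * X0 k0 j 0 := by
      rw [h1, hXk1 j]; simp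
    have e4' : X0 k' j 0 = l' * X0 k0 j 0 := by
      rw [h2, hXk1 j]; simp
    have e5 : X0 k j 1 = l * X0 k0 j 1 := by
      rw [h1, hXk1 j]; simp
    have e6 : X0 k' j 1 = l' * X0 k0 j 1 := by
      rw [h2, hXk1 j]; simp
    refine ⟨(l / m - l' / m') / (b j - a j * s), ?_, ?_, ?_⟩
    · intro h0'
      rw [div_eq_zero_iff] at h0'
      rcases h0' with h0' | h0'
      · have h5 : m' * l = m * l' := by
          field_simp at h0'
          linear_combination h0'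
        obtain ⟨j', hj'⟩ := hother j
        have h6 := ADP_pair h0 hne hj' (c := m') (c' := m) (by
          rw [h1', h2', smul_add, smul_add, smul_smul, smul_smul, smul_smul, smul_smul, h5,
            mul_comm m' m])
        exact hm h6.2
      · exact hsj h0'
    · rw [e1, e2, e3', e4']
      field_simp
    · rw [e1, e2, e5, e6]
      field_simp

end Pool.Agent.H3.GP
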