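import Mathlib
import Pool.Agent.H3.GP.Defs

/-!
# AR (MP_87ed0a_ag): ternary forms as coefficient arrays

PROOF. Let `e i m : Fin 3 →₀ ℕ` be the exponent vector with entries `(i, m, k - i - m)` and
`c' i m = if i + m ≤ k then coeff (e i m) f else 0` for `i : Fin (k+1)`, `m : Fin q`.
As `f` is homogeneous of degree `k` and `degreeOf 1 f < q`, every `d ∈ f.support` is `e i m` for a
unique pair `(i, m)` with `i = d 0 ≤ k`, `m = d 1 < q`, `d 2 = k - i - m`
(`MvPolynomial.monomial_le_degreeOf`, `IsHomogeneous`: `d 0 + d 1 + d 2 = k`); hence for all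
`v y₁ y₂`
  `eval ![v, y₁, y₂] f = ∑ i, ∑ m, c' i m * v ^ i * y₁ ^ m * y₂ ^ (k - i - m)`
(`MvPolynomial.eval_eq'`, reindex the sum over the support; or prove it for monomials and add).
Since `f ≠ 0` some `c' i m ≠ 0`.  Let `μ = max ‖c' i m‖ > 0` and `c = c' / μ`.
-/

open MvPolynomial

namespace Pool.Agent.H3.GP

private noncomputable def AR_e (k i m : ℕ) : Fin 3 →₀ ℕ :=
  Finsupp.single 0 i + Finsupp.single 1 m + Finsupp.single 2 (k - i - m)

private theorem AR_e0 (k i m : ℕ) : AR_e k i m 0 = i := by simp [AR_e]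
private theorem AR_e1 (k i m : ℕ) : AR_e k i m 1 = m := by simp [AR_e]
private theorem AR_e2 (k i m : ℕ) : AR_e k i m 2 = k - i - m := by simp [AR_e]

theorem AR (k q : ℕ) (f : MvPolynomial (Fin 3) ℂ) (hf : f.IsHomogeneous k)
    (hd : f.degreeOf 1 < q) (h0 : f ≠ 0) :
    ∃ c : Fin (k + 1) → Fin q → ℂ, (∀ i m, ‖c i m‖ ≤ 1) ∧ (∃ i m, ‖c i m‖ = 1) ∧
      (∀ (i : Fin (k + 1)) (m : Fin q), k < (i : ℕ) + (m : ℕ) → c i m = 0) ∧
      ∀ v y₁ y₂ : ℂ, eval ![v, y₁, y₂] f = 0 →
        ∑ i : Fin (k + 1), ∑ m : Fin q,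
          c i m * v ^ (i : ℕ) * y₁ ^ (m : ℕ) * y₂ ^ (k - (i : ℕ) - (m : ℕ)) = 0 := by
  classical
  have hq : 0 < q := lt_of_le_of_lt (Nat.zero_le _) hd
  -- exponents in the support
  have hsupp : ∀ d ∈ f.support, d 0 + d 1 + d 2 = k ∧ d 1 < q := by
    intro d hd'
    have h1 : d.degree = k := by
      have := hf (mem_support_iff.1 hd')
      rw [Finsupp.degree_eq_weight_one (R := ℕ)]
      exact this
    have h2 : d.degree = d 0 + d 1 + d 2 := by
      rw [Finsupp.degree_eq_sum, Fin.sum_univ_three]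
    refine ⟨by omega, ?_⟩
    exact lt_of_le_of_lt (monomial_le_degreeOf 1 hd') hd
  have hde : ∀ d ∈ f.support, d = AR_e k (d 0) (d 1) := by
    intro d hd'
    obtain ⟨h1, -⟩ := hsupp d hd'
    ext i
    fin_cases i
    · simp [AR_e0]
    · simp [AR_e1]
    · simp only [Fin.reduceFinMk, AR_e2]
      omega
  set c' : Fin (k + 1) → Fin q → ℂ := fun i m =>
    if (i : ℕ) + (m : ℕ) ≤ k then coeff (AR_e k i m) f else 0 with hc'
  have hne : ∃ i m, c' i m ≠ 0 := by
    obtain ⟨d, hd'⟩ := MvPolynomial.ne_zero_iff.1 h0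
    have hds : d ∈ f.support := mem_support_iff.2 hd'
    obtain ⟨h1, h2⟩ := hsupp d hds
    refine ⟨⟨d 0, by omega⟩, ⟨d 1, h2⟩, ?_⟩
    simp only [hc']
    rw [if_pos (by omega), ← hde d hds]
    exact hd'
  -- evaluation
  have heval : ∀ v y₁ y₂ : ℂ, eval ![v, y₁, y₂] f = ∑ i : Fin (k + 1), ∑ m : Fin q,
      c' i m * v ^ (i : ℕ) * y₁ ^ (m : ℕ) * y₂ ^ (k - (i : ℕ) - (m : ℕ)) := by
    intro v y₁ y₂
    rw [MvPolynomial.eval_eq', ← Fintype.sum_prod_type']
    have h1 : ∀ d ∈ f.support, coeff d f * ∏ i, ![v, y₁, y₂] i ^ d i =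
        coeff d f * v ^ (d 0) * y₁ ^ (d 1) * y₂ ^ (d 2) := by
      intro d _
      rw [Fin.prod_univ_three]
      simp only [Matrix.cons_val_zero, Matrix.cons_val_one, Matrix.cons_val]
      ring
    rw [Finset.sum_congr rfl h1]
    refine Finset.sum_of_injOn (fun d => ((⟨min (d 0) k, by omega⟩ : Fin (k + 1)),
      (⟨min (d 1) (q - 1), by omega⟩ : Fin q))) ?_ ?_ ?_ ?_
    · intro d hd1 d' hd2 h
      simp only [Finset.mem_coe] at hd1 hd2
      obtain ⟨h3, h4⟩ := hsupp d hd1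
      obtain ⟨h5, h6⟩ := hsupp d' hd2
      simp only [Prod.mk.injEq, Fin.mk.injEq] at h
      ext i
      fin_cases i
      · simp only [Fin.zero_eta]; omega
      · simp only [Fin.mk_one]; omega
      · simp only [Fin.reduceFinMk]; omega
    · intro d _
      simp
    · rintro ⟨i, m⟩ - hnot
      by_cases him : (i : ℕ) + (m : ℕ) ≤ k
      · have h3 : coeff (AR_e k i m) f = 0 := by
          by_contra hne0
          apply hnot
          refine ⟨AR_e k i m, mem_support_iff.2 hne0, ?_⟩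
          have hi := i.2
          have hm := m.2
          ext
          · simp only [AR_e0]; omega
          · simp only [AR_e1]; omega
        simp only [hc', if_pos him, h3]
        ring
      · simp only [hc', if_neg him]
        ring
    · intro d hd1
      obtain ⟨h3, h4⟩ := hsupp d hd1
      simp only [hc']
      have e0 : min (d 0) k = d 0 := by omega
      have e1 : min (d 1) (q - 1) = d 1 := by omega
      simp only [e0, e1]
      rw [if_pos (by omega), ← hde d hd1, show k - d 0 - d 1 = d 2 by omega]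
  -- normalise
  obtain ⟨i0, m0, him0⟩ := hne
  obtain ⟨⟨i1, m1⟩, -, hmax⟩ := Finset.exists_max_image (Finset.univ : Finset (Fin (k + 1) × Fin q))
    (fun im => ‖c' im.1 im.2‖) ⟨(i0, m0), Finset.mem_univ _⟩
  set μ : ℝ := ‖c' i1 m1‖ with hμ
  have hμ0 : 0 < μ := lt_of_lt_of_le (norm_pos_iff.2 him0) (hmax (i0, m0) (Finset.mem_univ _))
  refine ⟨fun i m => c' i m / (μ : ℂ), ?_, ⟨i1, m1, ?_⟩, ?_, ?_⟩
  · intro i m
    rw [norm_div, Complex.norm_real, Real.norm_of_nonneg hμ0.le, div_le_one hμ0]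
    exact hmax (i, m) (Finset.mem_univ _)
  · rw [norm_div, Complex.norm_real, Real.norm_of_nonneg hμ0.le, ← hμ, div_self hμ0.ne']
  · intro i m h
    simp only [hc']
    rw [if_neg (by omega), zero_div]
  · intro v y₁ y₂ h
    have h1 := heval v y₁ y₂
    rw [h] at h1
    have h2 : ∑ i : Fin (k + 1), ∑ m : Fin q,
        c' i m / (μ : ℂ) * v ^ (i : ℕ) * y₁ ^ (m : ℕ) * y₂ ^ (k - (i : ℕ) - (m : ℕ)) =
        (∑ i : Fin (k + 1), ∑ m : Fin q,
        c' i m * v ^ (i : ℕ) * y₁ ^ (m : ℕ) * y₂ ^ (k - (i : ℕ) - (m : ℕ))) / (μ : ℂ) := by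
      rw [Finset.sum_div]
      refine Finset.sum_congr rfl fun i _ => ?_
      rw [Finset.sum_div]
      refine Finset.sum_congr rfl fun m _ => ?_
      ring
    rw [h2, ← h1, zero_div]

end Pool.Agent.H3.GP
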