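import Mathlib
import Pool.Agent.H3.GP.Defs

/-!
# INF (MP_87ed0a_ag): plane curves have infinitely many points

PROOF. If `F = 0` the set is everything: infinite (the points `[1 : s : 0]`, `s ∈ ℂ`, are pairwise
different).  If `F ≠ 0` there is `e` with `eval e F ≠ 0` (`MvPolynomial.funext`), `e ≠ 0` because
`k ≥ 1`.  Choose `v₀ v₁` with `e, v₀, v₁` linearly independent.  For `s : ℂ` let
`v = v₀ + s • v₁`; the univariate polynomial `T ↦ eval (T • e + v) F` has the coefficient
`eval e F ≠ 0` at `T ^ k` and degree `k ≥ 1` (homogeneity; or: it is not constant, because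
`T^{-k} eval (T e + v) F = eval (e + T^{-1} v) F → eval e F ≠ 0` as `T → ∞`), so it has a root
`T(s)` (`IsAlgClosed.exists_root`).  The points `T(s) • e + v₀ + s • v₁` are nonzero, are zeros of
`F`, and are pairwise different points of the projective plane.  For the degree: with
`p = aeval (fun i => C (e i) * X + C (v i)) F : Polynomial ℂ`, if `p` were a constant `p₀` then for
all `T ≠ 0`: `eval (e + T⁻¹ • v) F = T⁻¹ ^ k * p₀` (homogeneity,
`MvPolynomial.IsHomogeneous.eval₂`/`eval_smul`), i.e. `eval (e + S • v) F = S ^ k * p₀` for all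
`S ≠ 0`, hence (two polynomials in `S`) for `S = 0`: `eval e F = 0`, contradiction.
The value of a homogeneous polynomial at `q.rep` is zero iff it is zero at any representative
(`Projectivization.mk_rep`, `Projectivization.mk_eq_mk_iff`).
-/

open MvPolynomial Filter Topology

namespace Pool.Agent.H3.GP

private theorem INF_smul {k : ℕ} {F : MvPolynomial (Fin 3) ℂ} (hF : F.IsHomogeneous k) (c : ℂ)
    (v : Fin 3 → ℂ) : eval (c • v) F = c ^ k * eval v F := by
  rw [MvPolynomial.eval_eq', MvPolynomial.eval_eq', Finset.mul_sum]
  refine Finset.sum_congr rfl fun d hd => ?_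
  have h1 : d.degree = k := by
    have := hF (mem_support_iff.1 hd)
    rw [Finsupp.degree_eq_weight_one (R := ℕ)]
    exact this
  have h2 : d.degree = d 0 + d 1 + d 2 := by
    rw [Finsupp.degree_eq_sum, Fin.sum_univ_three]
  rw [Fin.prod_univ_three, Fin.prod_univ_three, ← h1, h2]
  simp only [Pi.smul_apply, smul_eq_mul, mul_pow, pow_add]
  ring

/-- on every line through a point `e` outside the curve there is a point of the curve -/
private theorem INF_root {k : ℕ} (hk : 1 ≤ k) {F : MvPolynomial (Fin 3) ℂ}
    (hF : F.IsHomogeneous k) {e : Fin 3 → ℂ} (he : eval e F ≠ 0) (v : Fin 3 → ℂ) :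
    ∃ T : ℂ, eval (T • e + v) F = 0 := by
  set p : Polynomial ℂ := aeval (fun i => Polynomial.C (e i) * Polynomial.X + Polynomial.C (v i)) F
    with hp
  have hpe : ∀ T : ℂ, p.eval T = eval (T • e + v) F := by
    intro T
    have h1 := MvPolynomial.map_aeval
      (fun i => Polynomial.C (e i) * Polynomial.X + Polynomial.C (v i))
      (Polynomial.evalRingHom T) F
    rw [← hp, Polynomial.coe_evalRingHom] at h1
    rw [h1]
    have h2 : (Polynomial.evalRingHom T).comp (algebraMap ℂ (Polynomial ℂ)) = RingHom.id ℂ := by
      ext x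
      simp
    rw [h2]
    simp only [MvPolynomial.coe_eval₂Hom]
    rw [← MvPolynomial.eval₂_id]
    congr 1
    ext i
    simp only [Polynomial.eval_add, Polynomial.eval_mul,
      Polynomial.eval_C, Polynomial.eval_X, Pi.add_apply, Pi.smul_apply, smul_eq_mul]
    ring
  by_cases hd : p.degree = 0
  · exfalso
    obtain ⟨p0, hp0⟩ : ∃ p0 : ℂ, p = Polynomial.C p0 := ⟨_, Polynomial.eq_C_of_degree_eq_zero hd⟩
    have h1 : ∀ S : ℂ, S ≠ 0 → eval (e + S • v) F = S ^ k * p0 := by
      intro S hS
      have h2 : e + S • v = S • (S⁻¹ • e + v) := by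
        rw [smul_add, smul_smul, mul_inv_cancel₀ hS, one_smul]
      rw [h2, INF_smul hF, ← hpe, hp0, Polynomial.eval_C]
    have h3 : Tendsto (fun S : ℂ => eval (e + S • v) F) (𝓝[≠] 0) (𝓝 (eval e F)) := by
      have hc : Continuous (fun S : ℂ => eval (e + S • v) F) :=
        (MvPolynomial.continuous_eval F).comp (by fun_prop)
      have := hc.tendsto 0
      simp only [zero_smul, add_zero] at this
      exact this.mono_left nhdsWithin_le_nhds
    have h4 : Tendsto (fun S : ℂ => S ^ k * p0) (𝓝[≠] 0) (𝓝 0) := by
      have hc : Continuous (fun S : ℂ => S ^ k * p0) := by fun_prop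
      have := hc.tendsto 0
      rw [zero_pow (by omega), zero_mul] at this
      exact this.mono_left nhdsWithin_le_nhds
    have h5 : Tendsto (fun S : ℂ => eval (e + S • v) F) (𝓝[≠] 0) (𝓝 0) := by
      refine h4.congr' ?_
      filter_upwards [self_mem_nhdsWithin] with S hS
      exact (h1 S hS).symm
    exact he (tendsto_nhds_unique h3 h5)
  · obtain ⟨T, hT⟩ := IsAlgClosed.exists_root p hd
    exact ⟨T, by rw [← hpe]; exact hT⟩

/-- a nonzero vector and the affine plane -/
private theorem INF_rep {k : ℕ} {F : MvPolynomial (Fin 3) ℂ} (hF : F.IsHomogeneous k)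
    {v : Fin 3 → ℂ} (hv : v ≠ 0) (h : eval v F = 0) :
    eval (Projectivization.mk ℂ v hv).rep F = 0 := by
  obtain ⟨a, ha⟩ := Projectivization.exists_smul_eq_mk_rep ℂ v hv
  rw [← ha, Units.smul_def, INF_smul hF, h, mul_zero]

theorem INF (k : ℕ) (hk : 1 ≤ k) (F : MvPolynomial (Fin 3) ℂ) (hF : F.IsHomogeneous k) :
    {q : Projectivization ℂ (Fin 3 → ℂ) | eval q.rep F = 0}.Infinite := by
  -- a linear equivalence moving `e` to the first vector
  obtain ⟨e, v0, v1, hli, T, hT⟩ : ∃ e v0 v1 : Fin 3 → ℂ, LinearIndependent ℂ ![e, v0, v1] ∧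
      ∃ T : ℂ → ℂ, ∀ s : ℂ, eval (T s • e + v0 + s • v1) F = 0 := by
    by_cases hF0 : F = 0
    · refine ⟨Pi.single 0 1, Pi.single 1 1, Pi.single 2 1, ?_, fun _ => 0, fun s => ?_⟩
      · rw [Fintype.linearIndependent_iff]
        intro g hg
        rw [Fin.sum_univ_three] at hg
        have h0 := congrFun hg 0
        have h1 := congrFun hg 1
        have h2 := congrFun hg 2
        simp at h0 h1 h2
        intro i
        fin_cases i
        · exact h0
        · exact h1
        · exact h2
      · rw [hF0, map_zero]
    · obtain ⟨e, he⟩ : ∃ e, eval e F ≠ 0 := by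
        by_contra hcon
        push Not at hcon
        exact hF0 (MvPolynomial.funext fun x => by rw [hcon x, map_zero])
      have he0 : e ≠ 0 := by
        rintro rfl
        have := INF_smul hF 0 0
        rw [zero_pow (by omega), zero_mul, smul_zero] at this
        exact he this
      -- complete to a basis
      obtain ⟨v0, v1, hli⟩ : ∃ v0 v1 : Fin 3 → ℂ, LinearIndependent ℂ ![e, v0, v1] := by
        obtain ⟨i, hi⟩ : ∃ i, e i ≠ 0 := by
          by_contra hcon
          push Not at hcon
          exact he0 (funext hcon)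
        have key : ∀ i a b : Fin 3, e i ≠ 0 → i ≠ a → i ≠ b → a ≠ b →
            LinearIndependent ℂ ![e, Pi.single a (1 : ℂ), Pi.single b (1 : ℂ)] := by
          intro i a b hi hia hib hab
          rw [Fintype.linearIndependent_iff]
          intro g hg
          rw [Fin.sum_univ_three] at hg
          simp only [Matrix.cons_val_zero, Matrix.cons_val_one, Matrix.cons_val] at hg
          have h0 := congrFun hg i
          have h1 := congrFun hg a
          have h2 := congrFun hg b
          simp only [Pi.add_apply, Pi.smul_apply, smul_eq_mul, Pi.zero_apply, Pi.single_eq_same,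
            Pi.single_eq_of_ne hia, Pi.single_eq_of_ne hib, Pi.single_eq_of_ne hab,
            Pi.single_eq_of_ne hab.symm, mul_zero, mul_one, add_zero] at h0 h1 h2
          have hg0 : g 0 = 0 := by
            rcases mul_eq_zero.1 h0 with h | h
            · exact h
            · exact absurd h hi
          rw [hg0] at h1 h2
          intro l
          fin_cases l
          · exact hg0
          · simpa using h1
          · simpa using h2
        fin_cases i
        · exact ⟨_, _, key 0 1 2 hi (by decide) (by decide) (by decide)⟩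
        · exact ⟨_, _, key 1 0 2 hi (by decide) (by decide) (by decide)⟩
        · exact ⟨_, _, key 2 0 1 hi (by decide) (by decide) (by decide)⟩
      have hroot := fun s : ℂ => INF_root hk hF he (v0 + s • v1)
      choose T hT using hroot
      exact ⟨e, v0, v1, hli, T, fun s => by rw [add_assoc]; exact hT s⟩
  -- the points
  have hne : ∀ s, T s • e + v0 + s • v1 ≠ 0 := by
    intro s h
    have h1 := Fintype.linearIndependent_iff.1 hli ![T s, 1, s] (by
      rw [Fin.sum_univ_three]
      simpa using h)
    have := h1 1
    simp at this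
  refine Set.infinite_of_injective_forall_mem (f := fun s : ℂ =>
    Projectivization.mk ℂ (T s • e + v0 + s • v1) (hne s)) ?_ ?_
  · intro s s' h
    rw [Projectivization.mk_eq_mk_iff'] at h
    obtain ⟨a, ha⟩ := h
    have h1 := Fintype.linearIndependent_iff.1 hli ![a * T s' - T s, a - 1, a * s' - s] (by
      rw [Fin.sum_univ_three]
      simp only [Matrix.cons_val_zero, Matrix.cons_val_one, Matrix.cons_val]
      have h2 : a • (T s' • e + v0 + s' • v1) - (T s • e + v0 + s • v1) = 0 := by
        rw [ha, sub_self]
      rw [← h2]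
      module)
    have h3 : a - 1 = 0 := by simpa using h1 1
    have h4 : a * s' - s = 0 := by simpa using h1 2
    have h5 : a = 1 := by linear_combination h3
    rw [h5] at h4
    linear_combination -h4
  · intro s
    exact INF_rep hF (hne s) (hT s)

end Pool.Agent.H3.GP
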