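import Mathlib
import Pool.Agent.H3.GP.Defs
import Pool.Agent.H3.GP.INF

/-!
# CF (MP_87ed0a_ag): forms through a complete intersection with small degree in one variable

PROOF. Let `F, G` be the forms of `hX` (degrees `a ≤ b`), `V(F, G) = X` finite.
(1) `F ≠ 0`: otherwise `X = V(G)`, infinite by `INF` (`b ≥ 1`).
(2) `G ≠ F * Q` for all `Q`: otherwise `X = V(F)`, infinite by `INF` (`a ≥ 1`).
First assertion of `CF`: take `f = F`; `degreeOf 1 F ≤ totalDegree F ≤ a`.
Second assertion: for a polynomial `f` write `f = f₁ + X₁^a * f₂` where `f₂ =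
f.divMonomial (Finsupp.single 1 a)` collects the monomials divisible by `X 1 ^ a`
(`MvPolynomial.divMonomial`, `modMonomial`); `f₂ = 0` iff all monomials of `f` have exponent `< a`
at the variable 1, i.e. `degreeOf 1 f < a` (`a ≥ 1`), and `f₂` is homogeneous of degree `b - a` if
`f` is homogeneous of degree `b`.  The linear map
  `homogeneousSubmodule (Fin 3) ℂ (b - a) × ℂ → homogeneousSubmodule (Fin 3) ℂ (b - a)`,
  `(Q, s) ↦ (F * Q + s • G).divMonomial (Finsupp.single 1 a)`
goes from a space of dimension `n + 1` to a space of dimension `n` (finite dimensional: finitely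
many monomials of given degree), so it has a nonzero kernel element `(Q, s)`.
`f = F * Q + s • G` is homogeneous of degree `b`, vanishes on `X`, has `degreeOf 1 f < a`, and is
nonzero: if `s ≠ 0` then `f = 0` gives `G = F * (- s⁻¹ • Q)`, excluded by (2); if `s = 0` then
`Q ≠ 0`, `F * Q ≠ 0`.
(Only the finiteness of the zero set of `F, G` is used.)
-/

open MvPolynomial

namespace Pool.Agent.H3.GP

/-- division by `X 1 ^ a` as a linear map -/
private noncomputable def CF_div (a : ℕ) :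
    MvPolynomial (Fin 3) ℂ →ₗ[ℂ] MvPolynomial (Fin 3) ℂ where
  toFun f := f.divMonomial (Finsupp.single 1 a)
  map_add' x y := add_divMonomial x y _
  map_smul' c x := by
    ext d
    simp

private theorem CF_coeff (a : ℕ) (f : MvPolynomial (Fin 3) ℂ) (d : Fin 3 →₀ ℕ) :
    coeff d (CF_div a f) = coeff (Finsupp.single 1 a + d) f := rfl

private theorem CF_hom (a b : ℕ) (f : MvPolynomial (Fin 3) ℂ)
    (hf : f.IsHomogeneous b) : (CF_div a f).IsHomogeneous (b - a) := by
  intro d hd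
  rw [CF_coeff] at hd
  have h2 := hf hd
  rw [map_add] at h2
  have h3 : Finsupp.weight (1 : Fin 3 → ℕ) (Finsupp.single 1 a) = a := by
    simp [Finsupp.weight_single]
  omega

private theorem CF_zero (a : ℕ) (ha : 1 ≤ a) (f : MvPolynomial (Fin 3) ℂ)
    (h : CF_div a f = 0) : f.degreeOf 1 < a := by
  rw [degreeOf_lt_iff ha]
  intro m hm
  by_contra hlt
  push Not at hlt
  have h1 : Finsupp.single 1 a + (m - Finsupp.single 1 a) = m :=
    add_tsub_cancel_of_le (Finsupp.single_le_iff.2 hlt)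
  have h2 := CF_coeff a f (m - Finsupp.single 1 a)
  rw [h, coeff_zero, h1] at h2
  exact (mem_support_iff.1 hm) h2.symm

private theorem CF_kernel (a b : ℕ) (ha : 1 ≤ a) (hab : a ≤ b) (F G : MvPolynomial (Fin 3) ℂ)
    (hF : F.IsHomogeneous a) (hG : G.IsHomogeneous b) :
    ∃ (Q : MvPolynomial (Fin 3) ℂ) (s : ℂ), (Q ≠ 0 ∨ s ≠ 0) ∧
      (F * Q + s • G).IsHomogeneous b ∧ (F * Q + s • G).degreeOf 1 < a := by
  set W := homogeneousSubmodule (Fin 3) ℂ (b - a) with hW
  have hfin : Module.Finite ℂ W := Module.Finite.iff_fg.2 (homogeneousSubmodule_fg (Fin 3) ℂ (b - a))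
  set M : W × ℂ →ₗ[ℂ] MvPolynomial (Fin 3) ℂ :=
    ((LinearMap.mulLeft ℂ F) ∘ₗ W.subtype).coprod (LinearMap.toSpanSingleton ℂ _ G) with hM
  have hMa : ∀ (Q : W) (s : ℂ), M (Q, s) = F * (Q : MvPolynomial (Fin 3) ℂ) + s • G := by
    intro Q s
    simp [hM]
  have hMh : ∀ x : W × ℂ, (M x).IsHomogeneous b := by
    rintro ⟨Q, s⟩
    rw [hMa]
    have h1 : (F * (Q : MvPolynomial (Fin 3) ℂ)).IsHomogeneous b := by
      have h := hF.mul ((mem_homogeneousSubmodule _ _).1 Q.2)
      rwa [Nat.add_sub_cancel' hab] at h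
    have h2 : (s • G).IsHomogeneous b := (homogeneousSubmodule (Fin 3) ℂ b).smul_mem s hG
    exact h1.add h2
  set L : W × ℂ →ₗ[ℂ] W := LinearMap.codRestrict W ((CF_div a) ∘ₗ M) (fun x =>
    CF_hom a b _ (hMh x)) with hL
  have hninj : ¬ Function.Injective L := by
    intro hinj
    have h1 := LinearMap.finrank_le_finrank_of_injective hinj
    rw [Module.finrank_prod, Module.finrank_self] at h1
    omega
  have hker : LinearMap.ker L ≠ ⊥ := fun h => hninj (LinearMap.ker_eq_bot.1 h)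
  obtain ⟨⟨Q, s⟩, hx, hx0⟩ := (Submodule.ne_bot_iff _).1 hker
  have h0 : CF_div a (M (Q, s)) = 0 := by
    have h1 : L (Q, s) = 0 := hx
    exact congrArg Subtype.val h1
  rw [hMa] at h0
  refine ⟨Q, s, ?_, ?_, CF_zero a ha _ h0⟩
  · by_contra hcon
    push Not at hcon
    apply hx0
    exact Prod.ext (Subtype.ext hcon.1) hcon.2
  · rw [← hMa]
    exact hMh _

theorem CF (a b : ℕ) (ha : 1 ≤ a) (hab : a ≤ b) (X : Set (Projectivization ℂ (Fin 3 → ℂ)))
    (hX : IsCI a b X) :
    (∃ f : MvPolynomial (Fin 3) ℂ, f ≠ 0 ∧ f.IsHomogeneous a ∧ f.degreeOf 1 ≤ a ∧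
      ∀ q ∈ X, eval q.rep f = 0) ∧
    (∃ f : MvPolynomial (Fin 3) ℂ, f ≠ 0 ∧ f.IsHomogeneous b ∧ f.degreeOf 1 < a ∧
      ∀ q ∈ X, eval q.rep f = 0) := by
  obtain ⟨hfin, -, F, G, hF, hG, hz⟩ := hX
  have hF0 : F ≠ 0 := by
    intro h
    refine INF b (ha.trans hab) G hG (hfin.subset fun q hq => ?_)
    rw [hz, h]
    exact ⟨map_zero _, hq⟩
  have hGQ : ∀ Q : MvPolynomial (Fin 3) ℂ, G ≠ F * Q := by
    intro Q h
    refine INF a ha F hF (hfin.subset fun q hq => ?_)
    have hq' : eval q.rep F = 0 := hq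
    rw [hz, h, map_mul, hq', zero_mul]
    exact ⟨rfl, rfl⟩
  refine ⟨⟨F, hF0, hF, ?_, fun q hq => ((hz q).1 hq).1⟩, ?_⟩
  · exact (degreeOf_le_totalDegree F 1).trans hF.totalDegree_le
  · obtain ⟨Q, s, hQs, h1, h2⟩ := CF_kernel a b ha hab F G hF hG
    refine ⟨F * Q + s • G, ?_, h1, h2, ?_⟩
    · intro h
      by_cases hs : s = 0
      · rw [hs, zero_smul, add_zero] at h
        rcases hQs with hQ | hs'
        · exact (mul_ne_zero hF0 hQ) h
        · exact hs' hs
      · apply hGQ (-(s⁻¹ • Q))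
        have h3 : s⁻¹ • (F * Q + s • G) = 0 := by rw [h, smul_zero]
        rw [smul_add, smul_smul, inv_mul_cancel₀ hs, one_smul] at h3
        rw [mul_neg, mul_smul_comm]
        exact eq_neg_of_add_eq_zero_right h3
    · intro q hq
      obtain ⟨h3, h4⟩ := (hz q).1 hq
      rw [map_add, map_mul, smul_eval, h3, h4]
      ring

end Pool.Agent.H3.GP
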