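import Mathlib
import Pool.Agent.H3.GP.Defs
import Pool.Agent.H3.GP.CF

/-!
# GEO (MP_87ed0a_ag): the working hypotheses hold for geproci sets

PROOF. Let `D` be the polynomial of `h`, `eval P D ≠ 0`, `ker π = span {P}`.  `IsCI a b
(projImage π (pts x))`; take `f` from `CF` (first or second assertion).  Claim:
`eval (π (x j)) f = 0` for all `j`.  If `π (x j) = 0` this holds because `f` is homogeneous of
positive degree.  Otherwise `x j ≠ 0`, `p = Projectivization.mk ℂ (x j) _ ∈ pts x`, `p.rep` is a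
nonzero multiple of `x j`, so `π p.rep ≠ 0` and `q = Projectivization.mk ℂ (π p.rep) _` is in
`projImage π (pts x)`; `eval q.rep f = 0` and `q.rep` is a nonzero multiple of `π (x j)`; `f` is
homogeneous.
-/

open MvPolynomial

namespace Pool.Agent.H3.GP

private theorem GEO_smul {k : ℕ} {F : MvPolynomial (Fin 3) ℂ} (hF : F.IsHomogeneous k) (c : ℂ)
    (v : Fin 3 → ℂ) : eval (c • v) F = c ^ k * eval v F := by
  rw [MvPolynomial.eval_eq', MvPolynomial.eval_eq', Finset.mul_sum]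
  refine Finset.sum_congr rfl fun d hd => ?_
  have h1 : d.degree = k := by
    have := hF (mem_support_iff.1 hd)
    rw [Finsupp.degree_eq_weight_one (R := ℕ)]
    exact this
  have h2 : d.degree = d 0 + d 1 + d 2 := by
    rw [Finsupp.degree_eq_sum, Fin.sum_univ_three]
  rw [Fin.prod_univ_three, Fin.prod_univ_three, ← h1, h2]
  simp only [Pi.smul_apply, smul_eq_mul, mul_pow, pow_add]
  ring

private theorem GEO_vanish {k : ℕ} (hk : 1 ≤ k) {J : Type} (x : J → Fin 4 → ℂ)
    (π : (Fin 4 → ℂ) →ₗ[ℂ] (Fin 3 → ℂ)) {f : MvPolynomial (Fin 3) ℂ} (hf : f.IsHomogeneous k)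
    (h : ∀ q ∈ projImage π (pts x), eval q.rep f = 0) (j : J) : eval (π (x j)) f = 0 := by
  by_cases h0 : π (x j) = 0
  · rw [h0]
    have h1 := GEO_smul hf 0 0
    rw [zero_pow (by omega), zero_mul, smul_zero] at h1
    exact h1
  · have hx : x j ≠ 0 := by
      intro h1
      exact h0 (by rw [h1, map_zero])
    set p := Projectivization.mk ℂ (x j) hx with hp
    obtain ⟨a, ha⟩ := Projectivization.exists_smul_eq_mk_rep ℂ (x j) hx
    have hrep : π p.rep = (a : ℂ) • π (x j) := by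
      rw [hp, ← ha, Units.smul_def, map_smul]
    have hne : π p.rep ≠ 0 := by
      rw [hrep]
      exact smul_ne_zero a.ne_zero h0
    have hmem : Projectivization.mk ℂ (π p.rep) hne ∈ projImage π (pts x) :=
      ⟨p, ⟨j, hx, rfl⟩, hne, rfl⟩
    have h1 := h _ hmem
    obtain ⟨b, hb⟩ := Projectivization.exists_smul_eq_mk_rep ℂ (π p.rep) hne
    rw [← hb, Units.smul_def, hrep, smul_smul, GEO_smul hf] at h1
    rcases mul_eq_zero.1 h1 with h2 | h2
    · exact absurd h2 (pow_ne_zero _ (mul_ne_zero b.ne_zero a.ne_zero))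
    · exact h2

theorem GEO (a b : ℕ) {J : Type} (x : J → Fin 4 → ℂ) (h : IsGeproci a b (pts x)) :
    (∀ q, a < q → GenForm a q x) ∧ GenForm b a x := by
  obtain ⟨ha, hab, -, -, D, hD, h⟩ := h
  constructor
  · intro q hq
    refine ⟨D, hD, fun P hP π hπ => ?_⟩
    obtain ⟨⟨f, hf0, hf1, hf2, hf3⟩, -⟩ := CF a b ha hab _ (h P hP π hπ)
    exact ⟨f, hf0, hf1, lt_of_le_of_lt hf2 hq, GEO_vanish ha x π hf1 hf3⟩
  · refine ⟨D, hD, fun P hP π hπ => ?_⟩
    obtain ⟨-, ⟨f, hf0, hf1, hf2, hf3⟩⟩ := CF a b ha hab _ (h P hP π hπ)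
    exact ⟨f, hf0, hf1, hf2, GEO_vanish (ha.trans hab) x π hf1 hf3⟩

end Pool.Agent.H3.GP
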