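import Mathlib
import Pool.Agent.H3.GP.Defs

/-!
# GRD (MP_87ed0a_ag): vectors in grid position give a grid

PROOF. `A k = span {x k j | j}`, which is `span {x k j₀, x k j₁}` for any `j₀ ≠ j₁` (`h.col`);
`B j = span {x k j | k}` = `span {x k₀ j, x k₁ j}` (`h.row`).  Dimension 2: two of the vectors are
independent (`h.ind`).  `A k ⊓ A k' = ⊥` for `k ≠ k'`: the four vectors
`x k j, x k j', x k' j, x k' j'` are independent (`h.ind`).  `B j ⊓ B j' = ⊥` in the same way.
`A k ⊓ B j = span {x k j}`: `x k j` is in both and nonzero; if the intersection had dimension 2 then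
`A k = B j`, but `x k j' ∈ A k` for `j' ≠ j`, `x k j' ∈ B j'`, `B j ⊓ B j' = ⊥` and `x k j' ≠ 0`.
So the dimension is 1.  `pts = {p | ∃ k j, p.submodule = A k ⊓ B j}`: `p.submodule = span {x k j}`
iff `p = mk (x k j)` (`Projectivization.submodule_mk`, `Projectivization.submodule_injective`).
-/

namespace Pool.Agent.H3.GP

private theorem GRD_four {v0 v1 v2 v3 : Fin 4 → ℂ} (h : LinearIndependent ℂ ![v0, v1, v2, v3])
    {α β γ δ : ℂ} (h0 : α • v0 + β • v1 + γ • v2 + δ • v3 = 0) :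
    α = 0 ∧ β = 0 ∧ γ = 0 ∧ δ = 0 := by
  have h1 := Fintype.linearIndependent_iff.1 h ![α, β, γ, δ] (by
    rw [Fin.sum_univ_four]
    exact h0)
  exact ⟨h1 0, h1 1, h1 2, h1 3⟩

private theorem GRD_two {v0 v1 v2 v3 : Fin 4 → ℂ} (h : LinearIndependent ℂ ![v0, v1, v2, v3]) :
    Module.finrank ℂ (Submodule.span ℂ ({v0, v1} : Set (Fin 4 → ℂ))) = 2 := by
  have h1 : LinearIndependent ℂ ![v0, v1] := by
    rw [LinearIndependent.pair_iff]
    intro s t hst
    have h2 := GRD_four h (α := s) (β := t) (γ := 0) (δ := 0) (by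
      rw [hst, zero_smul, zero_smul, add_zero, add_zero])
    exact ⟨h2.1, h2.2.1⟩
  have h2 := finrank_span_eq_card h1
  rw [Fintype.card_fin] at h2
  have h3 : Set.range ![v0, v1] = {v0, v1} := by
    rw [Matrix.range_cons, Matrix.range_cons, Matrix.range_empty, Set.union_empty]
    rfl
  rw [h3] at h2
  exact h2

private theorem GRD_disj {v0 v1 v2 v3 : Fin 4 → ℂ} (h : LinearIndependent ℂ ![v0, v1, v2, v3]) :
    Submodule.span ℂ ({v0, v1} : Set (Fin 4 → ℂ)) ⊓ Submodule.span ℂ ({v2, v3} : Set (Fin 4 → ℂ))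
      = ⊥ := by
  rw [Submodule.eq_bot_iff]
  intro u hu
  obtain ⟨hu1, hu2⟩ := Submodule.mem_inf.1 hu
  obtain ⟨α, β, rfl⟩ := Submodule.mem_span_pair.1 hu1
  obtain ⟨γ, δ, h2⟩ := Submodule.mem_span_pair.1 hu2
  have h3 := GRD_four h (α := α) (β := β) (γ := -γ) (δ := -δ) (by
    rw [← h2]
    module)
  rw [h3.1, h3.2.1, zero_smul, zero_smul, add_zero]

private theorem GRD_swap {v0 v1 v2 v3 : Fin 4 → ℂ} (h : LinearIndependent ℂ ![v0, v1, v2, v3]) :
    LinearIndependent ℂ ![v0, v2, v1, v3] := by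
  rw [Fintype.linearIndependent_iff]
  intro g hg
  rw [Fin.sum_univ_four] at hg
  have h1 : g 0 • v0 + g 2 • v1 + g 1 • v2 + g 3 • v3 = 0 := by
    have h2 : g 0 • v0 + g 1 • v2 + g 2 • v1 + g 3 • v3 = 0 := hg
    rw [← h2]
    module
  obtain ⟨e0, e1, e2, e3⟩ := GRD_four h h1
  intro i
  fin_cases i
  · exact e0
  · exact e2
  · exact e1
  · exact e3

theorem GRD (a b : ℕ) (ha : 2 ≤ a) (hab : a ≤ b) (x : Fin a → Fin b → Fin 4 → ℂ)
    (h : GridVec a b x) : IsGrid a b (pts (fun kj : Fin a × Fin b => x kj.1 kj.2)) := by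
  have hexk : ∀ k : Fin a, ∃ k', k ≠ k' := by
    intro k
    have : Nontrivial (Fin a) := Fin.nontrivial_iff_two_le.2 ha
    obtain ⟨k', hk'⟩ := exists_ne k
    exact ⟨k', hk'.symm⟩
  have hexj : ∀ j : Fin b, ∃ j', j ≠ j' := by
    intro j
    have : Nontrivial (Fin b) := Fin.nontrivial_iff_two_le.2 (ha.trans hab)
    obtain ⟨j', hj'⟩ := exists_ne j
    exact ⟨j', hj'.symm⟩
  have hA : ∀ k j0 j1, j0 ≠ j1 → Submodule.span ℂ (Set.range (x k))
      = Submodule.span ℂ {x k j0, x k j1} := by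
    intro k j0 j1 hj
    apply le_antisymm
    · rw [Submodule.span_le]
      rintro _ ⟨j, rfl⟩
      exact h.col k j0 j1 j hj
    · apply Submodule.span_mono
      rintro _ (rfl | rfl)
      · exact ⟨j0, rfl⟩
      · exact ⟨j1, rfl⟩
  have hB : ∀ j k0 k1, k0 ≠ k1 → Submodule.span ℂ (Set.range (fun k => x k j))
      = Submodule.span ℂ {x k0 j, x k1 j} := by
    intro j k0 k1 hk
    apply le_antisymm
    · rw [Submodule.span_le]
      rintro _ ⟨k, rfl⟩
      exact h.row j k0 k1 k hk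
    · apply Submodule.span_mono
      rintro _ (rfl | rfl)
      · exact ⟨k0, rfl⟩
      · exact ⟨k1, rfl⟩
  have hne : ∀ k j, x k j ≠ 0 := by
    intro k j
    obtain ⟨k', hk⟩ := hexk k
    obtain ⟨j', hj⟩ := hexj j
    exact (h.ind k k' j j' hk hj).ne_zero 0
  have hAB : ∀ k j, Submodule.span ℂ (Set.range (x k)) ⊓
      Submodule.span ℂ (Set.range (fun k => x k j)) = Submodule.span ℂ {x k j} := by
    intro k j
    obtain ⟨k', hk⟩ := hexk k
    obtain ⟨j', hj⟩ := hexj j
    apply le_antisymm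
    · rw [hA k j j' hj, hB j k k' hk]
      intro u hu
      obtain ⟨hu1, hu2⟩ := Submodule.mem_inf.1 hu
      obtain ⟨α, β, rfl⟩ := Submodule.mem_span_pair.1 hu1
      obtain ⟨γ, δ, h2⟩ := Submodule.mem_span_pair.1 hu2
      have h3 := GRD_four (h.ind k k' j j' hk hj) (α := α - γ) (β := β) (γ := -δ) (δ := 0) (by
        have h4 : (α - γ) • x k j + β • x k j' + -δ • x k' j + (0 : ℂ) • x k' j'
            = (α • x k j + β • x k j') - (γ • x k j + δ • x k' j) := by module
        rw [h4, h2, sub_self])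
      rw [h3.2.1, zero_smul, add_zero]
      exact Submodule.smul_mem _ _ (Submodule.mem_span_singleton_self _)
    · rw [Submodule.span_singleton_le_iff_mem, Submodule.mem_inf]
      exact ⟨Submodule.subset_span ⟨j, rfl⟩, Submodule.subset_span ⟨k, rfl⟩⟩
  refine ⟨ha, hab, fun k => Submodule.span ℂ (Set.range (x k)),
    fun j => Submodule.span ℂ (Set.range (fun k => x k j)), ?_, ?_, ?_, ?_, ?_, ?_⟩
  · intro k
    obtain ⟨k', hk⟩ := hexk k
    have hb0 : 0 < b := by omega
    obtain ⟨j', hj⟩ := hexj ⟨0, hb0⟩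
    show Module.finrank ℂ (Submodule.span ℂ (Set.range (x k))) = 2
    rw [hA k _ _ hj]
    exact GRD_two (h.ind k k' _ j' hk hj)
  · intro j
    obtain ⟨j', hj⟩ := hexj j
    have ha0 : 0 < a := by omega
    obtain ⟨k', hk⟩ := hexk ⟨0, ha0⟩
    show Module.finrank ℂ (Submodule.span ℂ (Set.range (fun k => x k j))) = 2
    rw [hB j _ _ hk]
    exact GRD_two (GRD_swap (h.ind _ k' j j' hk hj))
  · intro k k' hk
    have hb0 : 0 < b := by omega
    obtain ⟨j', hj⟩ := hexj ⟨0, hb0⟩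
    show Submodule.span ℂ (Set.range (x k)) ⊓ Submodule.span ℂ (Set.range (x k')) = ⊥
    rw [hA k _ _ hj, hA k' _ _ hj]
    exact GRD_disj (h.ind k k' _ j' hk hj)
  · intro j j' hj
    have ha0 : 0 < a := by omega
    obtain ⟨k', hk⟩ := hexk ⟨0, ha0⟩
    show Submodule.span ℂ (Set.range (fun k => x k j)) ⊓
      Submodule.span ℂ (Set.range (fun k => x k j')) = ⊥
    rw [hB j _ _ hk, hB j' _ _ hk]
    exact GRD_disj (GRD_swap (h.ind _ k' j j' hk hj))
  · intro k j
    show Module.finrank ℂ (Submodule.span ℂ (Set.range (x k)) ⊓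
      Submodule.span ℂ (Set.range (fun k => x k j)) : Submodule ℂ (Fin 4 → ℂ)) = 1
    rw [hAB]
    exact finrank_span_singleton (hne k j)
  · ext p
    constructor
    · rintro ⟨⟨k, j⟩, hz, rfl⟩
      refine ⟨k, j, ?_⟩
      show (Projectivization.mk ℂ (x k j) hz).submodule = Submodule.span ℂ (Set.range (x k)) ⊓
        Submodule.span ℂ (Set.range (fun k => x k j))
      rw [hAB, Projectivization.submodule_mk]
    · rintro ⟨k, j, hp⟩
      have hp' : p.submodule = Submodule.span ℂ (Set.range (x k)) ⊓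
        Submodule.span ℂ (Set.range (fun k => x k j)) := hp
      rw [hAB] at hp'
      refine ⟨(k, j), hne k j, ?_⟩
      apply Projectivization.submodule_injective
      rw [hp', Projectivization.submodule_mk]

end Pool.Agent.H3.GP
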