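import Mathlib
import Pool.Agent.H3.GP.Defs

/-!
# INV (MP_87ed0a_ag): linear invariance of the working hypothesis

PROOF. Let `D` be the polynomial of `h` and `D' = MvPolynomial.bind₁ (fun i => ∑ j, C (M i j) * X j) D`
(so `eval P D' = eval (M.mulVec P) D` for all `P`); `D' ≠ 0` because `D ≠ 0` has a point `y` with
`eval y D ≠ 0` (`MvPolynomial.funext`) and `P = M⁻¹.mulVec y` gives `eval P D' ≠ 0`.
Let `eval P D' ≠ 0` and `π` with kernel `span {P}`.  Then `π' = π ∘ₗ Matrix.toLin' M⁻¹` (or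
`Matrix.mulVecLin`) has kernel `span {M.mulVec P}` and `π' (M.mulVec (X j)) = π (X j)`; apply `h`.
-/

open MvPolynomial

namespace Pool.Agent.H3.GP

theorem INV (k q : ℕ) {J : Type} (M : Matrix (Fin 4) (Fin 4) ℂ) (hM : IsUnit M.det)
    (X : J → Fin 4 → ℂ) (h : GenForm k q (fun j => M.mulVec (X j))) : GenForm k q X := by
  obtain ⟨D, hD, h⟩ := h
  set D' : MvPolynomial (Fin 4) ℂ := bind₁ (fun i => ∑ j, C (M i j) * MvPolynomial.X j) D with hD'
  have heval : ∀ P : Fin 4 → ℂ, eval P D' = eval (M.mulVec P) D := by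
    intro P
    have h1 : eval P D' = eval (fun i => eval P (∑ j, C (M i j) * MvPolynomial.X j)) D := by
      rw [hD']
      have := MvPolynomial.eval₂Hom_bind₁ (RingHom.id ℂ) P
        (fun i => ∑ j, C (M i j) * MvPolynomial.X j) D
      exact this
    rw [h1]
    congr 1
    congr 1
    ext i
    simp [Matrix.mulVec, dotProduct]
  have hinv : M⁻¹ * M = 1 := Matrix.nonsing_inv_mul M hM
  have hinv' : M * M⁻¹ = 1 := Matrix.mul_nonsing_inv M hM
  refine ⟨D', ?_, ?_⟩
  · intro h0
    apply hD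
    apply MvPolynomial.funext
    intro y
    have h1 := heval (M⁻¹.mulVec y)
    rw [Matrix.mulVec_mulVec, hinv', Matrix.one_mulVec, h0, map_zero] at h1
    rw [← h1, map_zero]
  · intro P hP π hπ
    have h1 := h (M.mulVec P) (by rw [← heval]; exact hP) (π ∘ₗ M⁻¹.mulVecLin) ?_
    · obtain ⟨f, hf0, hf1, hf2, hf3⟩ := h1
      refine ⟨f, hf0, hf1, hf2, fun j => ?_⟩
      have h2 := hf3 j
      have h3 : (π ∘ₗ M⁻¹.mulVecLin) (M.mulVec (X j)) = π (X j) := by
        rw [LinearMap.comp_apply, Matrix.mulVecLin_apply, Matrix.mulVec_mulVec, hinv,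
          Matrix.one_mulVec]
      change eval ((π ∘ₗ M⁻¹.mulVecLin) (M.mulVec (X j))) f = 0 at h2
      rw [h3] at h2
      exact h2
    · ext v
      rw [LinearMap.mem_ker, LinearMap.comp_apply, Matrix.mulVecLin_apply, ← LinearMap.mem_ker, hπ,
        Submodule.mem_span_singleton, Submodule.mem_span_singleton]
      constructor
      · rintro ⟨a, ha⟩
        refine ⟨a, ?_⟩
        rw [← Matrix.mulVec_smul, ha, Matrix.mulVec_mulVec, hinv', Matrix.one_mulVec]
      · rintro ⟨a, ha⟩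
        refine ⟨a, ?_⟩
        rw [← ha, Matrix.mulVec_smul, Matrix.mulVec_mulVec, hinv, Matrix.one_mulVec]

end Pool.Agent.H3.GP
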