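import Mathlib
import Pool.Agent.H3.GP.Defs

/-!
# PER (MP_87ed0a_ag): choosing a general centre near a given one

PROOF. (A) Density: for `D : MvPolynomial (Fin n) ℂ`, `D ≠ 0`, every `x` and `ρ > 0` there is `y`
with `‖y i - x i‖ < ρ` for all `i` and `eval y D ≠ 0`: there is `y₀` with `eval y₀ D ≠ 0`
(`MvPolynomial.funext`), the univariate polynomial `s ↦ eval (x + s • (y₀ - x)) D`
(`MvPolynomial.aeval` into `Polynomial ℂ`, `x i ↦ C (x i) + X * C (y₀ i - x i)`) is nonzero (value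
at 1), so it has finitely many roots; take a small real `s > 0` which is not a root.

(B) Let `P0 = ![1, τ, δ * α, δ * β]`.  The functions `P ↦ P 1 / P 0`, `P ↦ P 2 / (δ * P 0)`,
`P ↦ P 3 / (δ * P 0)` are continuous at `P0` with values `τ, α, β`.  By (A) applied to the `D` of
`hG` choose `P` close to `P0` with `eval P D ≠ 0`, `P 0 ≠ 0` and these three values `τ', α', β'`
within `ε` of `τ, α, β`.  Then `P = P 0 • ![1, τ', δ * α', δ * β']` and the kernel of
`wp τ' α' β' δ` is `{x | x 1 = τ' x 0, x 2 = δ α' x 0, x 3 = δ β' x 0} = span {P}`.  Use `hG`.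
-/

open MvPolynomial Filter Topology

namespace Pool.Agent.H3.GP

/-- density of the complement of a hypersurface -/
private theorem PER_dense {n : ℕ} (D : MvPolynomial (Fin n) ℂ) (hD : D ≠ 0) (x : Fin n → ℂ) :
    ∃ y0 : Fin n → ℂ, ∀ᶠ s : ℝ in 𝓝[>] (0 : ℝ), eval (x + (s : ℂ) • (y0 - x)) D ≠ 0 := by
  obtain ⟨y0, hy⟩ : ∃ y0, eval y0 D ≠ 0 := by
    by_contra hcon
    push Not at hcon
    exact hD (MvPolynomial.funext fun x => by rw [hcon x, map_zero])
  refine ⟨y0, ?_⟩
  set p : Polynomial ℂ :=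
    aeval (fun i => Polynomial.C (x i) + Polynomial.X * Polynomial.C (y0 i - x i)) D with hp
  have hpe : ∀ T : ℂ, p.eval T = eval (x + T • (y0 - x)) D := by
    intro T
    have h1 := MvPolynomial.map_aeval
      (fun i => Polynomial.C (x i) + Polynomial.X * Polynomial.C (y0 i - x i))
      (Polynomial.evalRingHom T) D
    rw [← hp, Polynomial.coe_evalRingHom] at h1
    rw [h1]
    have h2 : (Polynomial.evalRingHom T).comp (algebraMap ℂ (Polynomial ℂ)) = RingHom.id ℂ := by
      ext x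
      simp
    rw [h2]
    simp only [MvPolynomial.coe_eval₂Hom]
    rw [← MvPolynomial.eval₂_id]
    congr 1
    ext i
    simp only [Polynomial.eval_add, Polynomial.eval_mul, Polynomial.eval_C, Polynomial.eval_X,
      Pi.add_apply, Pi.smul_apply, Pi.sub_apply, smul_eq_mul]
  have hp0 : p ≠ 0 := by
    intro h
    have h1 := hpe 1
    rw [h, Polynomial.eval_zero, one_smul, add_sub_cancel] at h1
    exact hy h1.symm
  have hfin : {s : ℝ | p.eval (s : ℂ) = 0}.Finite := by
    have h1 : {z : ℂ | p.eval z = 0}.Finite := by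
      refine (p.roots.toFinset.finite_toSet).subset fun z hz => ?_
      simp only [Finset.mem_coe, Multiset.mem_toFinset]
      exact (Polynomial.mem_roots hp0).2 hz
    exact h1.preimage (Complex.ofReal_injective.injOn)
  have h2 : ∀ᶠ s : ℝ in 𝓝[>] (0 : ℝ), s ∉ {s : ℝ | p.eval (s : ℂ) = 0} \ {0} := by
    have h3 : IsClosed ({s : ℝ | p.eval (s : ℂ) = 0} \ {0}) :=
      (hfin.subset Set.sdiff_subset).isClosed
    have h4 : ({s : ℝ | p.eval (s : ℂ) = 0} \ {0})ᶜ ∈ 𝓝 (0 : ℝ) :=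
      h3.isOpen_compl.mem_nhds (by simp)
    exact nhdsWithin_le_nhds h4
  filter_upwards [h2, self_mem_nhdsWithin] with s hs hs0
  intro h
  apply hs
  refine ⟨?_, ?_⟩
  · show p.eval (s : ℂ) = 0
    rw [hpe]
    exact h
  · simp only [Set.mem_singleton_iff]
    exact (ne_of_gt hs0)

theorem PER (k q : ℕ) {J : Type} (X : J → Fin 4 → ℂ) (hG : GenForm k q X)
    (δ : ℝ) (hδ : 0 < δ) (τ α β : ℂ) (ε : ℝ) (hε : 0 < ε) :
    ∃ τ' α' β' : ℂ, ‖τ' - τ‖ < ε ∧ ‖α' - α‖ < ε ∧ ‖β' - β‖ < ε ∧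
      HasForm k q (fun j => wp τ' α' β' δ (X j)) := by
  obtain ⟨D, hD, hG⟩ := hG
  have hδc : (δ : ℂ) ≠ 0 := by exact_mod_cast hδ.ne'
  set P0 : Fin 4 → ℂ := ![1, τ, δ * α, δ * β] with hP0
  obtain ⟨y0, hy0⟩ := PER_dense D hD P0
  -- the path
  have hpath : Tendsto (fun s : ℝ => P0 + (s : ℂ) • (y0 - P0)) (𝓝[>] 0) (𝓝 P0) := by
    have hc : Continuous (fun s : ℝ => P0 + (s : ℂ) • (y0 - P0)) := by
      have : Continuous (fun s : ℝ => (s : ℂ)) := Complex.continuous_ofReal
      fun_prop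
    have h1 := hc.tendsto 0
    simp only [Complex.ofReal_zero, zero_smul, add_zero] at h1
    exact h1.mono_left nhdsWithin_le_nhds
  have hcoord := tendsto_pi_nhds.1 hpath
  have h0 := hcoord 0
  have h1 := hcoord 1
  have h2 := hcoord 2
  have h3 := hcoord 3
  have e0 : P0 0 = 1 := rfl
  have e1 : P0 1 = τ := rfl
  have e2 : P0 2 = δ * α := rfl
  have e3 : P0 3 = δ * β := rfl
  have t1 := h1.div h0 (by rw [e0]; exact one_ne_zero)
  have t2 := h2.div (h0.const_mul (δ : ℂ)) (by rw [e0]; simpa using hδc)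
  have t3 := h3.div (h0.const_mul (δ : ℂ)) (by rw [e0]; simpa using hδc)
  rw [e0, e1, div_one] at t1
  rw [e0, e2, mul_one, mul_div_cancel_left₀ _ hδc] at t2
  rw [e0, e3, mul_one, mul_div_cancel_left₀ _ hδc] at t3
  have n0 : ∀ᶠ s : ℝ in 𝓝[>] (0 : ℝ), (P0 + (s : ℂ) • (y0 - P0)) 0 ≠ 0 :=
    h0.eventually_ne (by rw [e0]; exact one_ne_zero)
  have b1 := t1.eventually (Metric.ball_mem_nhds _ hε)
  have b2 := t2.eventually (Metric.ball_mem_nhds _ hε)
  have b3 := t3.eventually (Metric.ball_mem_nhds _ hε)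
  obtain ⟨s, hs, n0, b1, b2, b3⟩ := (hy0.and (n0.and (b1.and (b2.and b3)))).exists
  set P : Fin 4 → ℂ := P0 + (s : ℂ) • (y0 - P0) with hP
  refine ⟨P 1 / P 0, P 2 / (δ * P 0), P 3 / (δ * P 0), ?_, ?_, ?_, ?_⟩
  · rw [dist_eq_norm] at b1; exact b1
  · rw [dist_eq_norm] at b2; exact b2
  · rw [dist_eq_norm] at b3; exact b3
  · refine hG P hs (wp (P 1 / P 0) (P 2 / (δ * P 0)) (P 3 / (δ * P 0)) δ) ?_
    ext x
    rw [LinearMap.mem_ker, Submodule.mem_span_singleton]
    constructor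
    · intro hx
      have g0 : P 1 / P 0 * x 0 - x 1 = 0 := congrFun hx 0
      have g1 : x 2 / δ - P 2 / (δ * P 0) * x 0 = 0 := congrFun hx 1
      have g2 : x 3 / δ - P 3 / (δ * P 0) * x 0 = 0 := congrFun hx 2
      refine ⟨x 0 / P 0, ?_⟩
      ext i
      fin_cases i
      · simp only [Fin.zero_eta, Pi.smul_apply, smul_eq_mul]
        field_simp
      · simp only [Fin.mk_one, Pi.smul_apply, smul_eq_mul]
        field_simp at g0 ⊢
        linear_combination g0
      · simp only [Fin.reduceFinMk, Pi.smul_apply, smul_eq_mul]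
        field_simp at g1 ⊢
        linear_combination -g1
      · simp only [Fin.reduceFinMk, Pi.smul_apply, smul_eq_mul]
        field_simp at g2 ⊢
        linear_combination -g2
    · rintro ⟨c, rfl⟩
      have hw : wp (P 1 / P 0) (P 2 / (δ * P 0)) (P 3 / (δ * P 0)) δ (c • P) =
        ![P 1 / P 0 * (c • P) 0 - (c • P) 1, (c • P) 2 / δ - P 2 / (δ * P 0) * (c • P) 0,
          (c • P) 3 / δ - P 3 / (δ * P 0) * (c • P) 0] := rfl
      rw [hw]
      ext i
      fin_cases i
      · show P 1 / P 0 * (c * P 0) - c * P 1 = 0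
        field_simp
        ring
      · show c * P 2 / δ - P 2 / (δ * P 0) * (c * P 0) = 0
        field_simp
        ring
      · show c * P 3 / δ - P 3 / (δ * P 0) * (c * P 0) = 0
        field_simp
        ring

end Pool.Agent.H3.GP
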