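import Mathlib
import Pool.Agent.H3.GP.Defs

/-!
# ZL (MP_87ed0a_ag): the zoom lemma (Vandermonde)

PROOF. `q = 0` or `r = 0`: nothing to prove.  For `i < r` put `S t i m = (δ t)^i * c t i m` and
`σ t = max_{i < r, m} ‖S t i m‖` (a `Finset.sup'` or the sup norm of the function
`fun (i : Fin r) (m : Fin q) => S t i m` in the finite dimensional space `Fin r → Fin q → ℂ`).

Claim: there is `C` with `∀ᶠ t in U, σ t ≤ C * (δ t)^r`.
Suppose not.  As `U` is an ultrafilter, for every `C : ℕ` we have `∀ᶠ t in U, C * (δ t)^r < σ t`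
(`Ultrafilter.eventually_not`), so `σ t > 0` eventually and `(δ t)^r / σ t → 0` along `U`.
The functions `s t = (σ t)⁻¹ • S t : Fin r → Fin q → ℂ` have norm 1 eventually, so (closed ball
compact, `IsCompact.ultrafilter_le_nhds` for `U.map s`) they converge along `U` to some `s0` with
`‖s0‖ = 1`.  Fix `j, l`.  Dividing `hz` by `σ t` and splitting the sum over `i` into `i < r` and
`i ≥ r`:
  `∑_{i<r} ∑_m s t i m * (u t j l)^i * (η t j l)^m
      + ∑_{i≥r} ∑_m c t i m * ((δ t)^i / σ t) * (u t j l)^i * (η t j l)^m = 0`,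
and the second sum tends to 0 (`‖c‖ ≤ 1`, `u`, `η` converge, `(δ t)^i ≤ (δ t)^r` once `δ t ≤ 1`).
Hence `∑_{i<r} (∑_m s0 i m * (η0 j)^m) * (u0 j l)^i = 0` for all `l : Fin r`: a polynomial of
degree `< r` with the `r` distinct roots `u0 j l`, so `∑_m s0 i m * (η0 j)^m = 0` for all `i < r`
and all `j : Fin q` (Vandermonde: `Matrix.det_vandermonde_ne_zero_iff`, or
`Polynomial.eq_zero_of_natDegree_lt_card_of_eval_eq_zero`); for fixed `i` this is a polynomial of
degree `< q` with the `q` distinct roots `η0 j`, so `s0 = 0`: contradiction with `‖s0‖ = 1`.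

End: `‖c t i m‖ = ‖S t i m‖ / (δ t)^i ≤ C * (δ t)^(r-i) → 0` as `i < r`.

It may be convenient to work with `c` restricted to `Fin r` through `Fin.castLE`, or with
`Finset.range` sums.  Prefix auxiliary lemmas with `ZL_`.
-/

open Filter Topology

namespace Pool.Agent.H3.GP

private theorem ZL_van (n r : ℕ) (a : Fin n → ℂ) (ha : ∀ i : Fin n, r ≤ (i : ℕ) → a i = 0)
    (x : Fin r → ℂ) (hx : Function.Injective x)
    (h : ∀ l, ∑ i : Fin n, a i * x l ^ (i : ℕ) = 0) (i : Fin n) : a i = 0 := by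
  classical
  rcases Nat.eq_zero_or_pos r with hr | hr
  · exact ha i (by omega)
  set P : Polynomial ℂ := ∑ i : Fin n, Polynomial.C (a i) * Polynomial.X ^ (i : ℕ) with hP
  have hev : ∀ l, P.eval (x l) = 0 := by
    intro l
    rw [hP, Polynomial.eval_finsetSum, ← h l]
    refine Finset.sum_congr rfl fun i _ => ?_
    rw [Polynomial.eval_mul, Polynomial.eval_C, Polynomial.eval_pow, Polynomial.eval_X]
  have hcoeff : ∀ i : Fin n, P.coeff (i : ℕ) = a i := by
    intro i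
    rw [hP, Polynomial.finsetSum_coeff, Finset.sum_eq_single i]
    · rw [Polynomial.coeff_C_mul, Polynomial.coeff_X_pow, if_pos rfl, mul_one]
    · intro j _ hj
      rw [Polynomial.coeff_C_mul, Polynomial.coeff_X_pow, if_neg, mul_zero]
      intro h1
      exact hj (Fin.ext h1.symm)
    · intro h1
      exact absurd (Finset.mem_univ i) h1
  have hdeg : P.natDegree < Fintype.card (Fin r) := by
    rw [Fintype.card_fin]
    have h1 : P.natDegree ≤ r - 1 := by
      rw [hP]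
      refine Polynomial.natDegree_sum_le_of_forall_le _ _ fun j _ => ?_
      by_cases hj : r ≤ (j : ℕ)
      · rw [ha j hj, Polynomial.C_0, zero_mul, Polynomial.natDegree_zero]
        exact Nat.zero_le _
      · refine (Polynomial.natDegree_C_mul_X_pow_le _ _).trans ?_
        omega
    omega
  have h0 := Polynomial.eq_zero_of_natDegree_lt_card_of_eval_eq_zero P hx hev hdeg
  rw [← hcoeff i, h0, Polynomial.coeff_zero]

/-- the low part of the coefficient array -/
private noncomputable def ZL_S (k q r : ℕ) (c : Fin (k + 1) → Fin q → ℂ) (d : ℝ) :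
    Fin (k + 1) → Fin q → ℂ :=
  fun i m => if (i : ℕ) < r then c i m * (d : ℂ) ^ (i : ℕ) else 0

/-- the high part of the coefficient array -/
private noncomputable def ZL_T (k q r : ℕ) (c : Fin (k + 1) → Fin q → ℂ) (d : ℝ) :
    Fin (k + 1) → Fin q → ℂ :=
  fun i m => if (i : ℕ) < r then 0 else c i m * (d : ℂ) ^ (i : ℕ)

private theorem ZL_split (k q r : ℕ) (c : Fin (k + 1) → Fin q → ℂ) (d : ℝ) (u η : ℂ) :
    av k q c ((d : ℂ) * u) η =
      ∑ i : Fin (k + 1), ∑ m : Fin q, ZL_S k q r c d i m * u ^ (i : ℕ) * η ^ (m : ℕ) +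
      ∑ i : Fin (k + 1), ∑ m : Fin q, ZL_T k q r c d i m * u ^ (i : ℕ) * η ^ (m : ℕ) := by
  rw [av, ← Finset.sum_add_distrib]
  refine Finset.sum_congr rfl fun i _ => ?_
  rw [← Finset.sum_add_distrib]
  refine Finset.sum_congr rfl fun m _ => ?_
  rw [ZL_S, ZL_T]
  split_ifs with h
  · rw [mul_pow]; ring
  · rw [mul_pow]; ring

private theorem ZL_claim {ι : Type} (U : Ultrafilter ι) (k q r : ℕ)
    (c : ι → Fin (k + 1) → Fin q → ℂ) (hc : ∀ t i m, ‖c t i m‖ ≤ 1)
    (δ : ι → ℝ) (hδ : ∀ t, 0 < δ t) (hδ0 : Tendsto δ U (𝓝 0))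
    (u : ι → Fin q → Fin r → ℂ) (u0 : Fin q → Fin r → ℂ)
    (hu : ∀ j l, Tendsto (fun t => u t j l) U (𝓝 (u0 j l)))
    (hu0 : ∀ j, Function.Injective (u0 j))
    (η : ι → Fin q → Fin r → ℂ) (η0 : Fin q → ℂ)
    (hη : ∀ j l, Tendsto (fun t => η t j l) U (𝓝 (η0 j)))
    (hη0 : Function.Injective η0)
    (hz : ∀ᶠ t in (U : Filter ι), ∀ j l,
      av k q (c t) ((δ t : ℂ) * u t j l) (η t j l) = 0) :
    ∃ K : ℝ, ∀ᶠ t in (U : Filter ι), ‖ZL_S k q r (c t) (δ t)‖ ≤ K * (δ t) ^ r := by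
  by_contra hcon
  have hbig : ∀ K : ℝ, ∀ᶠ t in (U : Filter ι), K * (δ t) ^ r < ‖ZL_S k q r (c t) (δ t)‖ := by
    intro K
    filter_upwards [Ultrafilter.eventually_not.2 (fun h => hcon ⟨K, h⟩)] with t ht
    exact not_le.1 ht
  set σ : ι → ℝ := fun t => ‖ZL_S k q r (c t) (δ t)‖ with hσ
  have hσpos : ∀ᶠ t in (U : Filter ι), 0 < σ t := by
    filter_upwards [hbig 0] with t ht
    rwa [zero_mul] at ht
  -- the ratio tends to zero
  have hratio : Tendsto (fun t => (δ t) ^ r / σ t) U (𝓝 0) := by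
    rw [Metric.tendsto_nhds]
    intro ε hε
    filter_upwards [hbig (1 / ε), hσpos] with t ht hs
    rw [Real.dist_eq, sub_zero, abs_of_nonneg (div_nonneg (pow_nonneg (hδ t).le _) hs.le),
      div_lt_iff₀ hs]
    have h1 : (δ t) ^ r = ε * (1 / ε * (δ t) ^ r) := by
      field_simp
    rw [h1]
    exact mul_lt_mul_of_pos_left ht hε
  -- the limit
  set s : ι → Fin (k + 1) → Fin q → ℂ := fun t => (σ t)⁻¹ • ZL_S k q r (c t) (δ t) with hs
  have hsn : ∀ᶠ t in (U : Filter ι), ‖s t‖ = 1 := by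
    filter_upwards [hσpos] with t ht
    rw [hs]
    simp only
    rw [norm_smul, norm_inv, Real.norm_of_nonneg ht.le]
    exact inv_mul_cancel₀ ht.ne'
  obtain ⟨s0, _, hs0⟩ := (isCompact_closedBall (0 : Fin (k + 1) → Fin q → ℂ) 1).ultrafilter_le_nhds
    (U.map s) (by
      rw [Filter.le_principal_iff]
      show s ⁻¹' (Metric.closedBall 0 1) ∈ (U : Filter ι)
      filter_upwards [hsn] with t ht
      rw [Set.mem_preimage, mem_closedBall_zero_iff, ht])
  have hlim : Tendsto s U (𝓝 s0) := hs0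
  have hnorm : ‖s0‖ = 1 := by
    have h1 : Tendsto (fun t => ‖s t‖) U (𝓝 ‖s0‖) := hlim.norm
    have h2 : Tendsto (fun _ : ι => (1 : ℝ)) U (𝓝 1) := tendsto_const_nhds
    exact tendsto_nhds_unique (h1.congr' hsn) h2
  have hlim' : ∀ i m, Tendsto (fun t => s t i m) U (𝓝 (s0 i m)) := by
    intro i m
    exact (tendsto_pi_nhds.1 ((tendsto_pi_nhds.1 hlim) i)) m
  have hhigh : ∀ i : Fin (k + 1), r ≤ (i : ℕ) → ∀ m, s0 i m = 0 := by
    intro i hi m
    have h1 : ∀ t, s t i m = 0 := by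
      intro t
      rw [hs]
      simp only [Pi.smul_apply, ZL_S, if_neg (not_lt.2 hi), smul_zero]
    have h2 := hlim' i m
    simp only [h1] at h2
    exact (tendsto_nhds_unique h2 tendsto_const_nhds)
  -- the high part tends to zero
  have hT : ∀ i m, Tendsto (fun t => ((σ t)⁻¹ : ℝ) • ZL_T k q r (c t) (δ t) i m) U (𝓝 0) := by
    intro i m
    by_cases hi : (i : ℕ) < r
    · have h1 : ∀ t, ((σ t)⁻¹ : ℝ) • ZL_T k q r (c t) (δ t) i m = 0 := by
        intro t
        rw [ZL_T, if_pos hi, smul_zero]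
      simp only [h1]
      exact tendsto_const_nhds
    · refine squeeze_zero_norm' ?_ hratio
      have hδ1 : ∀ᶠ t in (U : Filter ι), δ t ≤ 1 := by
        have := hδ0.eventually (gt_mem_nhds (show (0 : ℝ) < 1 by norm_num))
        filter_upwards [this] with t ht
        exact ht.le
      filter_upwards [hσpos, hδ1] with t ht ht1
      rw [ZL_T, if_neg hi, norm_smul, norm_inv, Real.norm_of_nonneg ht.le, norm_mul, norm_pow,
        Complex.norm_of_nonneg (hδ t).le, div_eq_inv_mul]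
      refine mul_le_mul_of_nonneg_left ?_ (inv_nonneg.2 ht.le)
      calc ‖c t i m‖ * (δ t) ^ (i : ℕ) ≤ 1 * (δ t) ^ r :=
            mul_le_mul (hc t i m) (pow_le_pow_of_le_one (hδ t).le ht1 (not_lt.1 hi))
              (pow_nonneg (hδ t).le _) zero_le_one
        _ = (δ t) ^ r := one_mul _
  -- the limit equations
  have heq : ∀ j l, ∑ i : Fin (k + 1), ∑ m : Fin q,
      s0 i m * (u0 j l) ^ (i : ℕ) * (η0 j) ^ (m : ℕ) = 0 := by
    intro j l
    have h1 : Tendsto (fun t => ∑ i : Fin (k + 1), ∑ m : Fin q,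
        s t i m * (u t j l) ^ (i : ℕ) * (η t j l) ^ (m : ℕ)) U
        (𝓝 (∑ i : Fin (k + 1), ∑ m : Fin q, s0 i m * (u0 j l) ^ (i : ℕ) * (η0 j) ^ (m : ℕ))) := by
      refine tendsto_finsetSum _ fun i _ => tendsto_finsetSum _ fun m _ => ?_
      exact ((hlim' i m).mul ((hu j l).pow _)).mul ((hη j l).pow _)
    have h2 : Tendsto (fun t => ∑ i : Fin (k + 1), ∑ m : Fin q,
        ((σ t)⁻¹ : ℝ) • ZL_T k q r (c t) (δ t) i m * (u t j l) ^ (i : ℕ) * (η t j l) ^ (m : ℕ)) U
        (𝓝 (∑ i : Fin (k + 1), ∑ m : Fin q, 0 * (u0 j l) ^ (i : ℕ) * (η0 j) ^ (m : ℕ))) := by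
      refine tendsto_finsetSum _ fun i _ => tendsto_finsetSum _ fun m _ => ?_
      exact ((hT i m).mul ((hu j l).pow _)).mul ((hη j l).pow _)
    have h3 := h1.add h2
    have h4 : ∀ᶠ t in (U : Filter ι), (∑ i : Fin (k + 1), ∑ m : Fin q,
        s t i m * (u t j l) ^ (i : ℕ) * (η t j l) ^ (m : ℕ)) + (∑ i : Fin (k + 1), ∑ m : Fin q,
        ((σ t)⁻¹ : ℝ) • ZL_T k q r (c t) (δ t) i m * (u t j l) ^ (i : ℕ) * (η t j l) ^ (m : ℕ)) =
        0 := by
      filter_upwards [hz] with t ht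
      have h5 := ht j l
      rw [ZL_split k q r] at h5
      have h6 : (((σ t)⁻¹ : ℝ) : ℂ) * (∑ i : Fin (k + 1), ∑ m : Fin q,
          ZL_S k q r (c t) (δ t) i m * (u t j l) ^ (i : ℕ) * (η t j l) ^ (m : ℕ) +
          ∑ i : Fin (k + 1), ∑ m : Fin q,
          ZL_T k q r (c t) (δ t) i m * (u t j l) ^ (i : ℕ) * (η t j l) ^ (m : ℕ)) = 0 := by
        rw [h5, mul_zero]
      rw [mul_add, Finset.mul_sum, Finset.mul_sum] at h6
      rw [← h6]
      congr 1
      · refine Finset.sum_congr rfl fun i _ => ?_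
        rw [Finset.mul_sum]
        refine Finset.sum_congr rfl fun m _ => ?_
        rw [hs]
        simp only [Pi.smul_apply, Complex.real_smul]
        ring
      · refine Finset.sum_congr rfl fun i _ => ?_
        rw [Finset.mul_sum]
        refine Finset.sum_congr rfl fun m _ => ?_
        simp only [Complex.real_smul]
        ring
    have h7 : Tendsto (fun _ : ι => (0 : ℂ)) U (𝓝 0) := tendsto_const_nhds
    have h8 := tendsto_nhds_unique (h3.congr' h4) h7
    simp only [zero_mul, Finset.sum_const_zero, add_zero] at h8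
    exact h8
  -- the first Vandermonde argument
  have hV1 : ∀ j i, ∑ m : Fin q, s0 i m * (η0 j) ^ (m : ℕ) = 0 := by
    intro j i
    refine ZL_van (k + 1) r (fun i => ∑ m : Fin q, s0 i m * (η0 j) ^ (m : ℕ)) ?_ (u0 j) (hu0 j)
      ?_ i
    · intro i hi
      refine Finset.sum_eq_zero fun m _ => ?_
      rw [hhigh i hi m, zero_mul]
    · intro l
      rw [← heq j l]
      refine Finset.sum_congr rfl fun i _ => ?_
      rw [Finset.sum_mul]
      refine Finset.sum_congr rfl fun m _ => ?_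
      ring
  have hV2 : ∀ i m, s0 i m = 0 := by
    intro i m
    exact ZL_van q q (fun m => s0 i m) (fun m hm => absurd m.2 (not_lt.2 hm)) η0 hη0
      (fun j => hV1 j i) m
  have hzero : s0 = 0 := by
    funext i m
    exact hV2 i m
  rw [hzero, norm_zero] at hnorm
  exact zero_ne_one hnorm

theorem ZL {ι : Type} (U : Ultrafilter ι) (k q r : ℕ) (hrk : r ≤ k)
    (c : ι → Fin (k + 1) → Fin q → ℂ) (hc : ∀ t i m, ‖c t i m‖ ≤ 1)
    (δ : ι → ℝ) (hδ : ∀ t, 0 < δ t) (hδ0 : Tendsto δ U (𝓝 0))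
    (u : ι → Fin q → Fin r → ℂ) (u0 : Fin q → Fin r → ℂ)
    (hu : ∀ j l, Tendsto (fun t => u t j l) U (𝓝 (u0 j l)))
    (hu0 : ∀ j, Function.Injective (u0 j))
    (η : ι → Fin q → Fin r → ℂ) (η0 : Fin q → ℂ)
    (hη : ∀ j l, Tendsto (fun t => η t j l) U (𝓝 (η0 j)))
    (hη0 : Function.Injective η0)
    (hz : ∀ᶠ t in (U : Filter ι), ∀ j l,
      av k q (c t) ((δ t : ℂ) * u t j l) (η t j l) = 0)
    (i : Fin (k + 1)) (m : Fin q) (hi : (i : ℕ) < r) :
    Tendsto (fun t => c t i m) U (𝓝 0) := by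
  obtain ⟨K, hK⟩ := ZL_claim U k q r c hc δ hδ hδ0 u u0 hu hu0 η η0 hη hη0 hz
  have h1 : Tendsto (fun t => K * (δ t) ^ (r - (i : ℕ))) U (𝓝 0) := by
    have h2 := (hδ0.pow (r - (i : ℕ))).const_mul K
    rwa [zero_pow (by omega), mul_zero] at h2
  refine squeeze_zero_norm' ?_ h1
  filter_upwards [hK] with t ht
  have h2 : ‖ZL_S k q r (c t) (δ t) i m‖ ≤ ‖ZL_S k q r (c t) (δ t)‖ :=
    (norm_le_pi_norm (ZL_S k q r (c t) (δ t) i) m).trans (norm_le_pi_norm _ i)
  rw [ZL_S, if_pos hi, norm_mul, norm_pow, Complex.norm_of_nonneg (hδ t).le] at h2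
  have h3 := h2.trans ht
  have h4 : (δ t) ^ r = (δ t) ^ (r - (i : ℕ)) * (δ t) ^ (i : ℕ) := by
    rw [← pow_add, Nat.sub_add_cancel hi.le]
  rw [h4, ← mul_assoc] at h3
  exact le_of_mul_le_mul_right h3 (pow_pos (hδ t) _)

end Pool.Agent.H3.GP
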