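import Mathlib
import Pool.Agent.H3.GP.Defs
import Pool.Agent.H3.GP.ZL
import Pool.Agent.H3.GP.AR

/-!
# ZC (MP_87ed0a_ag): the limit form

PROOF. For the `t` in the set of `hH` choose the array `c t` of `AR` (for the other `t` any array
with entries bounded by 1, e.g. the same formula with a default; `Filter.Eventually.choice`).
Bounded entries, `U` ultrafilter: `c t i m → c0 i m` for all `i, m`
(`IsCompact.ultrafilter_le_nhds` in closed balls).  `∃ i m, ‖c t i m‖ = 1` for eventually all `t`,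
finitely many pairs, `U` ultrafilter: some pair `(i, m)` works for eventually all `t`
(`Ultrafilter.eventually_exists_iff`/`Ultrafilter.finite...`, or: if all `c0 i m` were 0 then
`∑ ‖c t i m‖ → 0`, contradiction with `≥ 1`); so `c0 ≠ 0`.  Also `c0 i m = 0` if `k < i + m`.

Far points: for `k' ≠ k0` and `j` write `x = X t k' j`,
`wp (τ t) (α t) (β t) (δ t) x = (v, y₁, y₂)`, `y₂ = (x 3 - δ β x 0) / δ`.  As
`x 3 - δ β x 0 → X0 k' j 3 ≠ 0`, eventually `y₂ ≠ 0`, and dividing the array equation by `y₂ ^ k`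
(`c i m = 0` unless `i + m ≤ k`, and then
`v^i y₁^m y₂^(k-i-m) / y₂^k = (v/y₂)^i (y₁/y₂)^m`):
`av k q (c t) (δ * ũ) η̃ = 0` with `ũ = (τ x 0 - x 1) / (x 3 - δ β x 0)`,
`η̃ = (x 2 - δ α x 0) / (x 3 - δ β x 0)`.  These converge to
`(τ0 * X0 k' j 0 - X0 k' j 1) / X0 k' j 3` and `X0 k' j 2 / X0 k' j 3 = η j`.
Apply `ZL` with `r' = min k r` far lines `l ↦ k0.succAbove (Fin.castLE _ l)`
(injective, never `k0`): `c0 i m = 0` for all `i < r'`.

Near points: for `k' = k0` the array equation at `(v, y₁, y₂) = wp .. (X t k0 j)` has the limit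
`∑ i, ∑ m, c0 i m * V^i * Y₁^m * Y₂^(k-i-m) = 0` with `V = τ0 X0 k0 j 0 - X0 k0 j 1 ≠ 0`,
`Y₁ = w j 0 - α0 X0 k0 j 0`, `Y₂ = w j 1 - β0 X0 k0 j 0`.

If `k ≤ r` then `r' = k`, only `i = k`, `m = 0` is left: `c0 k 0 * V ^ k = 0` (use one `j`,
`q ≥ 2`), so `c0 = 0`, contradiction.  So `k = r + 1`, `r' = r`, and only the terms
`(i, m) = (r, 0), (r, 1), (r+1, 0)` are left; dividing by `V ^ r` gives the statement with
`c = ![c0 (r+1) 0, c0 r 1, c0 r 0] ≠ 0`.
-/

open Filter Topology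

namespace Pool.Agent.H3.GP

/-- scaling of the array equation -/
private theorem ZC_scale (k q : ℕ) (c : Fin (k + 1) → Fin q → ℂ)
    (h1 : ∀ (i : Fin (k + 1)) (m : Fin q), k < (i : ℕ) + (m : ℕ) → c i m = 0)
    (u η y v z : ℂ) (hy : y ≠ 0) (hv : v = u * y) (hz : z = η * y)
    (h : ∑ i : Fin (k + 1), ∑ m : Fin q,
      c i m * v ^ (i : ℕ) * z ^ (m : ℕ) * y ^ (k - (i : ℕ) - (m : ℕ)) = 0) :
    av k q c u η = 0 := by
  have h2 : ∑ i : Fin (k + 1), ∑ m : Fin q,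
      c i m * v ^ (i : ℕ) * z ^ (m : ℕ) * y ^ (k - (i : ℕ) - (m : ℕ))
        = av k q c u η * y ^ k := by
    unfold av
    rw [Finset.sum_mul]
    refine Finset.sum_congr rfl fun i _ => ?_
    rw [Finset.sum_mul]
    refine Finset.sum_congr rfl fun m _ => ?_
    by_cases him : k < (i : ℕ) + (m : ℕ)
    · rw [h1 i m him]
      simp
    · have e : y ^ k = y ^ (i : ℕ) * y ^ (m : ℕ) * y ^ (k - (i : ℕ) - (m : ℕ)) := by
        rw [← pow_add, ← pow_add]
        congr 1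
        omega
      rw [e, hv, hz, mul_pow, mul_pow]
      ring
  rw [h2] at h
  exact (mul_eq_zero.mp h).resolve_right (pow_ne_zero _ hy)

private theorem ZC_array (k q : ℕ) {J : Type} (y : J → Fin 3 → ℂ) :
    ∃ c : Fin (k + 1) → Fin q → ℂ, (∀ i m, ‖c i m‖ ≤ 1) ∧ (HasForm k q y →
      (∃ i m, ‖c i m‖ = 1) ∧
      (∀ (i : Fin (k + 1)) (m : Fin q), k < (i : ℕ) + (m : ℕ) → c i m = 0) ∧
      ∀ j, ∑ i : Fin (k + 1), ∑ m : Fin q,
          c i m * (y j 0) ^ (i : ℕ) * (y j 1) ^ (m : ℕ) * (y j 2) ^ (k - (i : ℕ) - (m : ℕ)) = 0) := by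
  by_cases h : HasForm k q y
  · obtain ⟨f, h0, hf, hd, hz⟩ := h
    obtain ⟨c, h1, h2, h3, h4⟩ := AR k q f hf hd h0
    refine ⟨c, h1, fun _ => ⟨h2, h3, fun j => h4 _ _ _ ?_⟩⟩
    have e : (![y j 0, y j 1, y j 2] : Fin 3 → ℂ) = y j := by
      ext i
      fin_cases i <;> rfl
    rw [e]
    exact hz j
  · exact ⟨0, by simp, fun h' => absurd h' h⟩

private theorem ZC_alg1 (k q : ℕ) (hq : 2 ≤ q) (c : Fin (k + 1) → Fin q → ℂ)
    (h1 : ∀ (i : Fin (k + 1)) (m : Fin q), k < (i : ℕ) + (m : ℕ) → c i m = 0)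
    (h2 : ∀ (i : Fin (k + 1)) (m : Fin q), (i : ℕ) < k → c i m = 0)
    (V Y₁ Y₂ : ℂ) (hV : V ≠ 0)
    (h : ∑ i : Fin (k + 1), ∑ m : Fin q,
      c i m * V ^ (i : ℕ) * Y₁ ^ (m : ℕ) * Y₂ ^ (k - (i : ℕ) - (m : ℕ)) = 0) : c = 0 := by
  obtain ⟨q', rfl⟩ : ∃ q', q = q' + 1 := ⟨q - 1, by omega⟩
  rw [Fin.sum_univ_castSucc] at h
  have e1 : ∑ i : Fin k, ∑ m : Fin (q' + 1),
      c i.castSucc m * V ^ ((i.castSucc : Fin (k + 1)) : ℕ) * Y₁ ^ (m : ℕ) *
        Y₂ ^ (k - ((i.castSucc : Fin (k + 1)) : ℕ) - (m : ℕ)) = 0 := by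
    refine Finset.sum_eq_zero fun i _ => Finset.sum_eq_zero fun m _ => ?_
    rw [h2 i.castSucc m (by simp)]
    simp
  rw [e1, zero_add, Fin.sum_univ_succ] at h
  have e2 : ∑ m : Fin q', c (Fin.last k) m.succ * V ^ ((Fin.last k : Fin (k + 1)) : ℕ) *
      Y₁ ^ ((m.succ : Fin (q' + 1)) : ℕ) *
        Y₂ ^ (k - ((Fin.last k : Fin (k + 1)) : ℕ) - ((m.succ : Fin (q' + 1)) : ℕ)) = 0 := by
    refine Finset.sum_eq_zero fun m _ => ?_
    rw [h1 (Fin.last k) m.succ (by simp)]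
    simp
  rw [e2, add_zero] at h
  have h3 : c (Fin.last k) 0 = 0 := by
    simp only [Fin.val_last, Fin.val_zero, pow_zero, mul_one, Nat.sub_self] at h
    exact (mul_eq_zero.mp h).resolve_right (pow_ne_zero _ hV)
  funext i m
  by_cases hi : (i : ℕ) < k
  · exact h2 i m hi
  · have hi' : i = Fin.last k := by
      apply Fin.ext
      have := i.2
      simp only [Fin.val_last]
      omega
    by_cases hm : (m : ℕ) = 0
    · have hm' : m = 0 := Fin.ext hm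
      rw [hi', hm', h3]
      rfl
    · exact h1 i m (by rw [hi', Fin.val_last]; omega)

private theorem ZC_alg2 (r q : ℕ) (hq : 2 ≤ q) {J : Type} (c : Fin (r + 1 + 1) → Fin q → ℂ)
    (h1 : ∀ (i : Fin (r + 1 + 1)) (m : Fin q), r + 1 < (i : ℕ) + (m : ℕ) → c i m = 0)
    (h2 : ∀ (i : Fin (r + 1 + 1)) (m : Fin q), (i : ℕ) < r → c i m = 0)
    (V Y₁ Y₂ : J → ℂ) (hV : ∀ j, V j ≠ 0) (hne : c ≠ 0)
    (h : ∀ j, ∑ i : Fin (r + 1 + 1), ∑ m : Fin q,
      c i m * V j ^ (i : ℕ) * Y₁ j ^ (m : ℕ) * Y₂ j ^ (r + 1 - (i : ℕ) - (m : ℕ)) = 0) :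
    ∃ c' : Fin 3 → ℂ, c' ≠ 0 ∧ ∀ j, c' 0 * V j + c' 1 * Y₁ j + c' 2 * Y₂ j = 0 := by
  obtain ⟨q', rfl⟩ : ∃ q', q = q' + 1 + 1 := ⟨q - 2, by omega⟩
  refine ⟨![c (Fin.last (r + 1)) 0, c (Fin.last r).castSucc 1, c (Fin.last r).castSucc 0],
    ?_, ?_⟩
  · intro h0
    apply hne
    have a0 : c (Fin.last (r + 1)) 0 = 0 := congrFun h0 0
    have a1 : c (Fin.last r).castSucc 1 = 0 := congrFun h0 1
    have a2 : c (Fin.last r).castSucc 0 = 0 := congrFun h0 2
    funext i m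
    by_cases hi : (i : ℕ) < r
    · exact h2 i m hi
    by_cases hi1 : (i : ℕ) = r
    · have hi' : i = (Fin.last r).castSucc := Fin.ext (by simp [hi1])
      by_cases hm0 : (m : ℕ) = 0
      · have hm' : m = 0 := Fin.ext hm0
        rw [hi', hm', a2]
        rfl
      by_cases hm1 : (m : ℕ) = 1
      · have hm' : m = 1 := Fin.ext (by rw [hm1, Fin.val_one])
        rw [hi', hm', a1]
        rfl
      exact h1 i m (by omega)
    · have hi' : i = Fin.last (r + 1) := by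
        apply Fin.ext
        have := i.2
        simp only [Fin.val_last]
        omega
      by_cases hm0 : (m : ℕ) = 0
      · have hm' : m = 0 := Fin.ext hm0
        rw [hi', hm', a0]
        rfl
      exact h1 i m (by rw [hi', Fin.val_last]; omega)
  · intro j
    have hj := h j
    rw [Fin.sum_univ_castSucc, Fin.sum_univ_castSucc] at hj
    have e1 : ∑ i : Fin r, ∑ m : Fin (q' + 1 + 1),
        c i.castSucc.castSucc m * V j ^ ((i.castSucc.castSucc : Fin (r + 1 + 1)) : ℕ) *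
          Y₁ j ^ (m : ℕ) *
          Y₂ j ^ (r + 1 - ((i.castSucc.castSucc : Fin (r + 1 + 1)) : ℕ) - (m : ℕ)) = 0 := by
      refine Finset.sum_eq_zero fun i _ => Finset.sum_eq_zero fun m _ => ?_
      rw [h2 i.castSucc.castSucc m (by simp)]
      simp
    rw [e1, zero_add, Fin.sum_univ_succ, Fin.sum_univ_succ, Fin.sum_univ_succ] at hj
    have e2 : ∑ m : Fin q', c (Fin.last r).castSucc m.succ.succ *
        V j ^ (((Fin.last r).castSucc : Fin (r + 1 + 1)) : ℕ) *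
        Y₁ j ^ ((m.succ.succ : Fin (q' + 1 + 1)) : ℕ) *
          Y₂ j ^ (r + 1 - (((Fin.last r).castSucc : Fin (r + 1 + 1)) : ℕ)
            - ((m.succ.succ : Fin (q' + 1 + 1)) : ℕ)) = 0 := by
      refine Finset.sum_eq_zero fun m _ => ?_
      rw [h1 (Fin.last r).castSucc m.succ.succ (by simp)]
      simp
    have e3 : ∑ m : Fin (q' + 1), c (Fin.last (r + 1)) m.succ *
        V j ^ ((Fin.last (r + 1) : Fin (r + 1 + 1)) : ℕ) *
        Y₁ j ^ ((m.succ : Fin (q' + 1 + 1)) : ℕ) *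
          Y₂ j ^ (r + 1 - ((Fin.last (r + 1) : Fin (r + 1 + 1)) : ℕ)
            - ((m.succ : Fin (q' + 1 + 1)) : ℕ)) = 0 := by
      refine Finset.sum_eq_zero fun m _ => ?_
      rw [h1 (Fin.last (r + 1)) m.succ (by simp)]
      simp
    rw [e2, e3] at hj
    have e4 : r + 1 - r - 0 = 1 := by omega
    have e5 : r + 1 - r - 1 = 0 := by omega
    simp only [Fin.val_castSucc, Fin.val_last, Fin.val_zero, Fin.val_one, pow_zero, mul_one,
      add_zero, Nat.sub_self, e4, e5, pow_one, Fin.succ_zero_eq_one] at hj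
    show c (Fin.last (r + 1)) 0 * V j + c (Fin.last r).castSucc 1 * Y₁ j +
      c (Fin.last r).castSucc 0 * Y₂ j = 0
    have hV' := pow_ne_zero r (hV j)
    apply mul_left_cancel₀ hV'
    rw [mul_zero]
    linear_combination hj

theorem ZC {ι : Type} (U : Ultrafilter ι) (r q k : ℕ) (hk : k ≤ r + 1) (hq : 2 ≤ q)
    (k0 : Fin (r + 1))
    (X : ι → Fin (r + 1) → Fin q → Fin 4 → ℂ) (X0 : Fin (r + 1) → Fin q → Fin 4 → ℂ)
    (δ : ι → ℝ) (hδ : ∀ t, 0 < δ t) (hδ0 : Tendsto δ U (𝓝 0))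
    (τ α β : ι → ℂ) (τ0 α0 β0 : ℂ) (hτ : Tendsto τ U (𝓝 τ0)) (hα : Tendsto α U (𝓝 α0))
    (hβ : Tendsto β U (𝓝 β0))
    (w : Fin q → Fin 2 → ℂ)
    (hX : ∀ k' j i, Tendsto (fun t => X t k' j i) U (𝓝 (X0 k' j i)))
    (hw2 : ∀ j, Tendsto (fun t => X t k0 j 2 / (δ t : ℂ)) U (𝓝 (w j 0)))
    (hw3 : ∀ j, Tendsto (fun t => X t k0 j 3 / (δ t : ℂ)) U (𝓝 (w j 1)))
    (hs : ∀ j, τ0 * X0 k0 j 0 - X0 k0 j 1 ≠ 0)
    (η : Fin q → ℂ) (hη : Function.Injective η)
    (hf3 : ∀ k', k' ≠ k0 → ∀ j, X0 k' j 3 ≠ 0)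
    (hf2 : ∀ k', k' ≠ k0 → ∀ j, X0 k' j 2 = η j * X0 k' j 3)
    (hfd : ∀ j k' k'', k' ≠ k0 → k'' ≠ k0 → k' ≠ k'' →
      (τ0 * X0 k' j 0 - X0 k' j 1) / X0 k' j 3 ≠ (τ0 * X0 k'' j 0 - X0 k'' j 1) / X0 k'' j 3)
    (hH : ∀ᶠ t in (U : Filter ι), HasForm k q
      (fun kj : Fin (r + 1) × Fin q => wp (τ t) (α t) (β t) (δ t) (X t kj.1 kj.2))) :
    k = r + 1 ∧ ∃ c : Fin 3 → ℂ, c ≠ 0 ∧ ∀ j,
      c 0 * (τ0 * X0 k0 j 0 - X0 k0 j 1) + c 1 * (w j 0 - α0 * X0 k0 j 0)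
        + c 2 * (w j 1 - β0 * X0 k0 j 0) = 0 := by
  choose c hc1 hc2 using fun t => ZC_array k q
    (fun kj : Fin (r + 1) × Fin q => wp (τ t) (α t) (β t) (δ t) (X t kj.1 kj.2))
  have hP := hH.mono fun t ht => hc2 t ht
  clear hc2
  have hball : ∀ t, c t ∈ Metric.closedBall (0 : Fin (k + 1) → Fin q → ℂ) 1 := by
    intro t
    rw [mem_closedBall_zero_iff, pi_norm_le_iff_of_nonneg zero_le_one]
    intro i
    rw [pi_norm_le_iff_of_nonneg zero_le_one]
    exact hc1 t i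
  obtain ⟨c0, -, hc0⟩ := (isCompact_closedBall (0 : Fin (k + 1) → Fin q → ℂ) 1).ultrafilter_le_nhds
    (U.map c) (by
      rw [le_principal_iff]
      exact Filter.mem_map.2 (Filter.Eventually.of_forall hball))
  have hlim : ∀ i m, Tendsto (fun t => c t i m) U (𝓝 (c0 i m)) := by
    have h : Tendsto c U (𝓝 c0) := hc0
    exact fun i m => tendsto_pi_nhds.1 (tendsto_pi_nhds.1 h i) m
  have hne : c0 ≠ 0 := by
    intro h
    have h1 : ∀ᶠ t in (U : Filter ι), ∀ i m, ‖c t i m‖ < 1 := by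
      rw [eventually_all]
      intro i
      rw [eventually_all]
      intro m
      have h2 := (hlim i m).norm
      rw [h] at h2
      simp only [Pi.zero_apply, norm_zero] at h2
      exact h2.eventually (gt_mem_nhds one_pos)
    obtain ⟨t, ht1, ht2⟩ := (h1.and hP).exists
    obtain ⟨i, m, him⟩ := ht2.1
    exact absurd him (ne_of_lt (ht1 i m))
  have hbig : ∀ (i : Fin (k + 1)) (m : Fin q), k < (i : ℕ) + (m : ℕ) → c0 i m = 0 := by
    intro i m him
    refine tendsto_nhds_unique (hlim i m) ?_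
    refine (tendsto_const_nhds (x := (0 : ℂ))).congr' ?_
    exact hP.mono fun t ht => (ht.2.1 i m him).symm
  have hδc : Tendsto (fun t => (δ t : ℂ)) U (𝓝 0) := by
    have := (Complex.continuous_ofReal.tendsto 0).comp hδ0
    rwa [Complex.ofReal_zero] at this
  have hδc0 : ∀ t, (δ t : ℂ) ≠ 0 := fun t => by
    exact_mod_cast (hδ t).ne'
  -- far points
  have hD : ∀ k' j, Tendsto (fun t => X t k' j 3 - (δ t : ℂ) * β t * X t k' j 0) U
      (𝓝 (X0 k' j 3)) := by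
    intro k' j
    have := (hX k' j 3).sub ((hδc.mul hβ).mul (hX k' j 0))
    simpa using this
  have hN : ∀ k' j, Tendsto (fun t => X t k' j 2 - (δ t : ℂ) * α t * X t k' j 0) U
      (𝓝 (X0 k' j 2)) := by
    intro k' j
    have := (hX k' j 2).sub ((hδc.mul hα).mul (hX k' j 0))
    simpa using this
  have hM : ∀ k' j, Tendsto (fun t => τ t * X t k' j 0 - X t k' j 1) U
      (𝓝 (τ0 * X0 k' j 0 - X0 k' j 1)) := fun k' j => (hτ.mul (hX k' j 0)).sub (hX k' j 1)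
  have hsmall : ∀ (i : Fin (k + 1)) (m : Fin q), (i : ℕ) < min k r → c0 i m = 0 := by
    intro i m hi
    refine tendsto_nhds_unique (hlim i m) ?_
    set K : Fin (min k r) → Fin (r + 1) := fun l =>
      k0.succAbove (Fin.castLE (min_le_right k r) l) with hK
    have hKne : ∀ l, K l ≠ k0 := fun l => Fin.succAbove_ne k0 _
    have hKinj : Function.Injective K := by
      intro l l' h
      exact Fin.castLE_injective _ (Fin.succAbove_right_injective h)
    refine ZL U k q (min k r) (min_le_left k r) c hc1 δ hδ hδ0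
      (fun t j l => (τ t * X t (K l) j 0 - X t (K l) j 1) /
        (X t (K l) j 3 - (δ t : ℂ) * β t * X t (K l) j 0))
      (fun j l => (τ0 * X0 (K l) j 0 - X0 (K l) j 1) / X0 (K l) j 3)
      (fun j l => (hM (K l) j).div (hD (K l) j) (hf3 _ (hKne l) j))
      ?_
      (fun t j l => (X t (K l) j 2 - (δ t : ℂ) * α t * X t (K l) j 0) /
        (X t (K l) j 3 - (δ t : ℂ) * β t * X t (K l) j 0))
      η ?_ hη ?_ i m hi
    · intro j l l' h
      by_contra hll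
      exact hfd j (K l) (K l') (hKne l) (hKne l') (fun h' => hll (hKinj h')) h
    · intro j l
      have h1 := (hN (K l) j).div (hD (K l) j) (hf3 _ (hKne l) j)
      rwa [hf2 _ (hKne l) j, mul_div_cancel_right₀ _ (hf3 _ (hKne l) j)] at h1
    · rw [eventually_all]
      intro j
      rw [eventually_all]
      intro l
      have h1 : ∀ᶠ t in (U : Filter ι),
          X t (K l) j 3 - (δ t : ℂ) * β t * X t (K l) j 0 ≠ 0 :=
        (hD (K l) j).eventually_ne (hf3 _ (hKne l) j)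
      filter_upwards [h1, hP] with t ht1 ht2
      have h2 := ht2.2.2 (K l, j)
      refine ZC_scale k q (c t) ht2.2.1 _ _ _ _ _ ?_ ?_ ?_ h2
      · show X t (K l) j 3 / (δ t : ℂ) - β t * X t (K l) j 0 ≠ 0
        intro h3
        apply ht1
        have h4 : X t (K l) j 3 - (δ t : ℂ) * β t * X t (K l) j 0
            = (δ t : ℂ) * (X t (K l) j 3 / (δ t : ℂ) - β t * X t (K l) j 0) := by
          field_simp [hδc0 t]
        rw [h4, h3, mul_zero]
      · show τ t * X t (K l) j 0 - X t (K l) j 1 = (δ t : ℂ) *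
          ((τ t * X t (K l) j 0 - X t (K l) j 1) /
            (X t (K l) j 3 - (δ t : ℂ) * β t * X t (K l) j 0)) *
          (X t (K l) j 3 / (δ t : ℂ) - β t * X t (K l) j 0)
        have h4 : X t (K l) j 3 / (δ t : ℂ) - β t * X t (K l) j 0 =
            (X t (K l) j 3 - (δ t : ℂ) * β t * X t (K l) j 0) / (δ t : ℂ) := by
          field_simp [hδc0 t]
        rw [h4]
        generalize X t (K l) j 3 - (δ t : ℂ) * β t * X t (K l) j 0 = D at ht1 ⊢
        have := hδc0 t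
        field_simp
      · show X t (K l) j 2 / (δ t : ℂ) - α t * X t (K l) j 0 =
          (X t (K l) j 2 - (δ t : ℂ) * α t * X t (K l) j 0) /
            (X t (K l) j 3 - (δ t : ℂ) * β t * X t (K l) j 0) *
          (X t (K l) j 3 / (δ t : ℂ) - β t * X t (K l) j 0)
        have h4 : X t (K l) j 3 / (δ t : ℂ) - β t * X t (K l) j 0 =
            (X t (K l) j 3 - (δ t : ℂ) * β t * X t (K l) j 0) / (δ t : ℂ) := by
          field_simp [hδc0 t]
        rw [h4]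
        generalize X t (K l) j 3 - (δ t : ℂ) * β t * X t (K l) j 0 = D at ht1 ⊢
        have := hδc0 t
        field_simp
  -- near points
  have hnear : ∀ j, ∑ i : Fin (k + 1), ∑ m : Fin q,
      c0 i m * (τ0 * X0 k0 j 0 - X0 k0 j 1) ^ (i : ℕ) * (w j 0 - α0 * X0 k0 j 0) ^ (m : ℕ) *
        (w j 1 - β0 * X0 k0 j 0) ^ (k - (i : ℕ) - (m : ℕ)) = 0 := by
    intro j
    have h1 : Tendsto (fun t => ∑ i : Fin (k + 1), ∑ m : Fin q,
        c t i m * (τ t * X t k0 j 0 - X t k0 j 1) ^ (i : ℕ) *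
          (X t k0 j 2 / (δ t : ℂ) - α t * X t k0 j 0) ^ (m : ℕ) *
          (X t k0 j 3 / (δ t : ℂ) - β t * X t k0 j 0) ^ (k - (i : ℕ) - (m : ℕ))) U
        (𝓝 (∑ i : Fin (k + 1), ∑ m : Fin q,
          c0 i m * (τ0 * X0 k0 j 0 - X0 k0 j 1) ^ (i : ℕ) *
            (w j 0 - α0 * X0 k0 j 0) ^ (m : ℕ) *
            (w j 1 - β0 * X0 k0 j 0) ^ (k - (i : ℕ) - (m : ℕ)))) := by
      refine tendsto_finsetSum _ fun i _ => tendsto_finsetSum _ fun m _ => ?_
      exact (((hlim i m).mul ((hM k0 j).pow _)).mul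
        (((hw2 j).sub (hα.mul (hX k0 j 0))).pow _)).mul
        (((hw3 j).sub (hβ.mul (hX k0 j 0))).pow _)
    refine tendsto_nhds_unique h1 ?_
    refine (tendsto_const_nhds (x := (0 : ℂ))).congr' ?_
    exact hP.mono fun t ht => (ht.2.2 (k0, j)).symm
  rcases Nat.lt_or_ge r k with hrk | hrk
  · obtain rfl : k = r + 1 := by omega
    refine ⟨rfl, ?_⟩
    exact ZC_alg2 r q hq c0 hbig (fun i m hi => hsmall i m (by omega)) _ _ _ hs hne hnear
  · exfalso
    apply hne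
    exact ZC_alg1 k q hq c0 hbig (fun i m hi => hsmall i m (by omega)) _ _ _
      (hs ⟨0, by omega⟩) (hnear ⟨0, by omega⟩)

end Pool.Agent.H3.GP
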