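import Mathlib
import Pool.Agent.H3.GP.Defs
import Pool.Agent.H3.GP.PER
import Pool.Agent.H3.GP.ZC

/-!
# ZG (MP_87ed0a_ag): zooming at one line in adapted coordinates

PROOF. `‖X t k0 j 2 / δ t‖ ≤ 1` eventually and the same for `X t k0 j 3 / δ t`, so (ultrafilter,
compact closed ball) both converge along `U`; call the limits `w j 0`, `w j 1`.
Choose `τ0` with `τ0 * X0 k0 j 0 - X0 k0 j 1 ≠ 0` for all `j` (`X0 k0 j ≠ 0` and `hX0`, so the pair
`(X0 k0 j 0, X0 k0 j 1)` is nonzero: each `j` excludes at most one value of `τ0`; `ℂ` infinite).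
For ANY `α0 β0 : ℂ`: by `PER` (with `ε = δ t`) and `Filter.Eventually.choice` there are functions
`τ α β : ι → ℂ` with `‖τ t - τ0‖ < δ t` etc. and `HasForm` of the family
`wp (τ t) (α t) (β t) (δ t) (X t kj.1 kj.2)` for eventually all `t`; so they tend to
`τ0, α0, β0`.  `hfd` of `ZC` holds: the difference is `ν * (τ0 * X0 k0 j 0 - X0 k0 j 1) ≠ 0`.
So `ZC` applies and gives `k = r + 1` and `c ≠ 0` with
  `c 0 * (τ0 * X0 k0 j 0 - X0 k0 j 1) + c 1 * (w j 0 - α0 * X0 k0 j 0)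
       + c 2 * (w j 1 - β0 * X0 k0 j 0) = 0` for all `j`.                              (*)
The limits at `j0`: `X0 k0 j0 = ![1,0,0,0]`, `w j0 = 0`; at `j1`: `X0 k0 j1 = ![0,1,0,0]`,
`w j1 = 0`.
Suppose `w j ≠ 0` for some `j`.  Take `(α0, β0) = (- conj .. )` any pair with
`α0 * w j 1 - β0 * w j 0 ≠ 0` (e.g. `(1, 0)` or `(0, 1)`).  (*) at `j1`: `c 0 = 0`; at `j0`:
`c 1 * α0 + c 2 * β0 = 0`; at `j`: `c 1 * w j 0 + c 2 * w j 1 = 0`; the determinant is nonzero, so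
`c = 0`, contradiction.  Hence all `w j = 0`.
-/

open Filter Topology

namespace Pool.Agent.H3.GP

private theorem ZG_lim {ι : Type} (U : Ultrafilter ι) (f : ι → ℂ)
    (h : ∀ᶠ t in (U : Filter ι), ‖f t‖ ≤ 1) : ∃ w : ℂ, Tendsto f U (𝓝 w) := by
  obtain ⟨w, -, hw⟩ := (isCompact_closedBall (0 : ℂ) 1).ultrafilter_le_nhds (U.map f) (by
    rw [le_principal_iff]
    refine Filter.mem_map.2 (h.mono fun t ht => ?_)
    show f t ∈ Metric.closedBall (0 : ℂ) 1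
    rwa [mem_closedBall_zero_iff])
  exact ⟨w, hw⟩

private theorem ZG_tau {q : ℕ} (a b : Fin q → ℂ) (h : ∀ j, a j = 0 → b j ≠ 0) :
    ∃ τ : ℂ, ∀ j, τ * a j - b j ≠ 0 := by
  have h1 : ∀ j, {τ : ℂ | τ * a j - b j = 0}.Finite := by
    intro j
    by_cases ha : a j = 0
    · have : {τ : ℂ | τ * a j - b j = 0} = ∅ := by
        ext τ
        simp [ha, h j ha]
      rw [this]
      exact Set.finite_empty
    · refine Set.Finite.subset (Set.finite_singleton (b j / a j)) ?_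
      intro τ hτ
      have h2 : τ * a j - b j = 0 := hτ
      show τ = b j / a j
      rw [eq_div_iff ha]
      linear_combination h2
  have h2 := (Set.finite_iUnion h1).infinite_compl.nonempty
  obtain ⟨τ, hτ⟩ := h2
  refine ⟨τ, fun j hj => hτ ?_⟩
  exact Set.mem_iUnion.2 ⟨j, hj⟩

private theorem ZG_near {ι : Type} (U : Ultrafilter ι) (δ : ι → ℝ)
    (hδ0 : Tendsto δ U (𝓝 0)) (τ : ι → ℂ) (τ0 : ℂ) (h : ∀ t, ‖τ t - τ0‖ ≤ δ t) :
    Tendsto τ U (𝓝 τ0) := by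
  rw [tendsto_iff_norm_sub_tendsto_zero]
  exact squeeze_zero (fun t => norm_nonneg _) h hδ0

private theorem ZG_choice (k q : ℕ) {J : Type} (X : J → Fin 4 → ℂ)
    (δ : ℝ) (hδ : 0 < δ) (τ α β : ℂ) :
    ∃ τ' α' β' : ℂ, ‖τ' - τ‖ ≤ δ ∧ ‖α' - α‖ ≤ δ ∧ ‖β' - β‖ ≤ δ ∧
      (GenForm k q X → HasForm k q (fun j => wp τ' α' β' δ (X j))) := by
  by_cases hG : GenForm k q X
  · obtain ⟨τ', α', β', h1, h2, h3, h4⟩ := PER k q X hG δ hδ τ α β δ hδ
    exact ⟨τ', α', β', h1.le, h2.le, h3.le, fun _ => h4⟩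
  · refine ⟨τ, α, β, ?_, ?_, ?_, fun h => absurd h hG⟩ <;> simpa using hδ.le

theorem ZG {ι : Type} (U : Ultrafilter ι) (r q k : ℕ) (hk : k ≤ r + 1) (hq : 2 ≤ q)
    (k0 : Fin (r + 1))
    (X : ι → Fin (r + 1) → Fin q → Fin 4 → ℂ) (X0 : Fin (r + 1) → Fin q → Fin 4 → ℂ)
    (δ : ι → ℝ) (hδ : ∀ t, 0 < δ t) (hδ0 : Tendsto δ U (𝓝 0))
    (hX : ∀ k' j, Tendsto (fun t => X t k' j) U (𝓝 (X0 k' j)))
    (hX0 : ∀ j, X0 k0 j 2 = 0 ∧ X0 k0 j 3 = 0) (hne : ∀ j, X0 k0 j ≠ 0)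
    (η : Fin q → ℂ) (hη : Function.Injective η)
    (hf : ∀ k', k' ≠ k0 → ∀ j, X0 k' j 3 ≠ 0 ∧ X0 k' j 2 = η j * X0 k' j 3)
    (hfd : ∀ j k' k'', k' ≠ k0 → k'' ≠ k0 → k' ≠ k'' → ∃ ν : ℂ, ν ≠ 0 ∧
      X0 k' j 0 / X0 k' j 3 - X0 k'' j 0 / X0 k'' j 3 = ν * X0 k0 j 0 ∧
      X0 k' j 1 / X0 k' j 3 - X0 k'' j 1 / X0 k'' j 3 = ν * X0 k0 j 1)
    (j0 j1 : Fin q)
    (hj : ∀ᶠ t in (U : Filter ι), X t k0 j0 = ![1, 0, 0, 0] ∧ X t k0 j1 = ![0, 1, 0, 0])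
    (hb : ∀ᶠ t in (U : Filter ι), ∀ j, ‖X t k0 j 2‖ ≤ δ t ∧ ‖X t k0 j 3‖ ≤ δ t)
    (hG : ∀ᶠ t in (U : Filter ι), GenForm k q (fun kj : Fin (r + 1) × Fin q => X t kj.1 kj.2)) :
    k = r + 1 ∧ ∀ j, Tendsto (fun t => X t k0 j 2 / (δ t : ℂ)) U (𝓝 0) ∧
      Tendsto (fun t => X t k0 j 3 / (δ t : ℂ)) U (𝓝 0) := by
  have hXi : ∀ k' j i, Tendsto (fun t => X t k' j i) U (𝓝 (X0 k' j i)) :=
    fun k' j i => tendsto_pi_nhds.1 (hX k' j) i
  have hdiv : ∀ (t : ι) (x : ℂ), ‖x‖ ≤ δ t → ‖x / (δ t : ℂ)‖ ≤ 1 := by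
    intro t x hx
    rw [norm_div, Complex.norm_real, Real.norm_of_nonneg (hδ t).le]
    exact (div_le_one (hδ t)).2 hx
  have hw2 : ∀ j, ∃ w : ℂ, Tendsto (fun t => X t k0 j 2 / (δ t : ℂ)) U (𝓝 w) := fun j =>
    ZG_lim U _ (hb.mono fun t ht => hdiv t _ (ht j).1)
  have hw3 : ∀ j, ∃ w : ℂ, Tendsto (fun t => X t k0 j 3 / (δ t : ℂ)) U (𝓝 w) := fun j =>
    ZG_lim U _ (hb.mono fun t ht => hdiv t _ (ht j).2)
  choose w2 hw2 using hw2
  choose w3 hw3 using hw3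
  obtain ⟨τ0, hτ0⟩ := ZG_tau (fun j => X0 k0 j 0) (fun j => X0 k0 j 1) (by
    intro j h0 h1
    apply hne j
    funext i
    fin_cases i
    · exact h0
    · exact h1
    · exact (hX0 j).1
    · exact (hX0 j).2)
  have key : ∀ α0 β0 : ℂ, k = r + 1 ∧ ∃ c : Fin 3 → ℂ, c ≠ 0 ∧ ∀ j,
      c 0 * (τ0 * X0 k0 j 0 - X0 k0 j 1) + c 1 * (w2 j - α0 * X0 k0 j 0)
        + c 2 * (w3 j - β0 * X0 k0 j 0) = 0 := by
    intro α0 β0
    choose τ α β hτ hα hβ hH using fun t => ZG_choice k q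
      (fun kj : Fin (r + 1) × Fin q => X t kj.1 kj.2) (δ t) (hδ t) τ0 α0 β0
    exact ZC U r q k hk hq k0 X X0 δ hδ hδ0 τ α β τ0 α0 β0 (ZG_near U δ hδ0 τ τ0 hτ)
      (ZG_near U δ hδ0 α α0 hα) (ZG_near U δ hδ0 β β0 hβ) (fun j => ![w2 j, w3 j]) hXi hw2 hw3
      hτ0 η hη (fun k' hk' j => (hf k' hk' j).1) (fun k' hk' j => (hf k' hk' j).2)
      (by
        intro j k' k'' h1 h2 h3 h4
        obtain ⟨ν, hν, e1, e2⟩ := hfd j k' k'' h1 h2 h3
        apply mul_ne_zero hν (hτ0 j)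
        rw [sub_div, sub_div, mul_div_assoc, mul_div_assoc] at h4
        linear_combination h4 - τ0 * e1 + e2)
      (hG.mono fun t ht => hH t ht)
  refine ⟨(key 0 0).1, ?_⟩
  -- limits at `j0`, `j1`
  have hj0 : X0 k0 j0 = ![1, 0, 0, 0] := by
    refine tendsto_nhds_unique (hX k0 j0) ?_
    exact tendsto_const_nhds.congr' (hj.mono fun t ht => ht.1.symm)
  have hj1 : X0 k0 j1 = ![0, 1, 0, 0] := by
    refine tendsto_nhds_unique (hX k0 j1) ?_
    exact tendsto_const_nhds.congr' (hj.mono fun t ht => ht.2.symm)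
  have z20 : w2 j0 = 0 := by
    refine tendsto_nhds_unique (hw2 j0) ?_
    exact tendsto_const_nhds.congr' (hj.mono fun t ht => by
      beta_reduce
      rw [ht.1]
      simp)
  have z30 : w3 j0 = 0 := by
    refine tendsto_nhds_unique (hw3 j0) ?_
    exact tendsto_const_nhds.congr' (hj.mono fun t ht => by
      beta_reduce
      rw [ht.1]
      simp)
  have z21 : w2 j1 = 0 := by
    refine tendsto_nhds_unique (hw2 j1) ?_
    exact tendsto_const_nhds.congr' (hj.mono fun t ht => by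
      beta_reduce
      rw [ht.2]
      simp)
  have z31 : w3 j1 = 0 := by
    refine tendsto_nhds_unique (hw3 j1) ?_
    exact tendsto_const_nhds.congr' (hj.mono fun t ht => by
      beta_reduce
      rw [ht.2]
      simp)
  have hdet : ∀ j (α0 β0 : ℂ), α0 * w3 j - β0 * w2 j = 0 := by
    intro j α0 β0
    by_contra hd
    obtain ⟨-, c, hc, hcj⟩ := key α0 β0
    apply hc
    have a1 := hcj j1
    have a0 := hcj j0
    have a2 := hcj j
    rw [hj1, z21, z31] at a1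
    rw [hj0, z20, z30] at a0
    simp only [Matrix.cons_val_zero, Matrix.cons_val_one, mul_zero, sub_zero, zero_sub, mul_one,
      add_zero, mul_neg, neg_eq_zero] at a1 a0
    rw [a1] at a0 a2
    have e1 : c 1 * α0 + c 2 * β0 = 0 := by linear_combination -a0
    have e2 : c 1 * w2 j + c 2 * w3 j = 0 := by linear_combination a2 + X0 k0 j 0 * e1
    have e3 : c 1 = 0 := by
      have : c 1 * (α0 * w3 j - β0 * w2 j) = 0 := by linear_combination w3 j * e1 - β0 * e2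
      exact (mul_eq_zero.mp this).resolve_right hd
    have e4 : c 2 = 0 := by
      have : c 2 * (α0 * w3 j - β0 * w2 j) = 0 := by linear_combination α0 * e2 - w2 j * e1
      exact (mul_eq_zero.mp this).resolve_right hd
    funext i
    fin_cases i
    · exact a1
    · exact e3
    · exact e4
  intro j
  have h1 := hdet j 1 0
  have h2 := hdet j 0 1
  rw [one_mul, zero_mul, sub_zero] at h1
  rw [zero_mul, one_mul, zero_sub, neg_eq_zero] at h2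
  refine ⟨?_, ?_⟩
  · rw [← h2]
    exact hw2 j
  · rw [← h1]
    exact hw3 j

end Pool.Agent.H3.GP
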