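import Mathlib
import Pool.Agent.H3.GP.Defs
import Pool.Agent.H3.GP.INV
import Pool.Agent.H3.GP.ADP
import Pool.Agent.H3.GP.ZG

/-!
# LIN (MP_87ed0a_ag): the lines of the grid persist, and forms of smaller degree do not exist

PROOF of `LIN`. Suppose not; `U` is an ultrafilter, so eventually some
`x t k0 j ∉ span {x t k0 j0, x t k0 j1}`.  Choose `k1 ≠ k0` (`p ≥ 2`) and take `M, X, X0, η` from
`ADP`.  Let `m t = max_j max ‖X t k0 j 2‖ ‖X t k0 j 3‖` (a `Finset.sup'` over `Fin q`, or the sum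
`∑ j, (‖X t k0 j 2‖ + ‖X t k0 j 3‖)` which is simpler: then `‖X t k0 j 2‖ ≤ m t`, `m t → 0`).
If `m t = 0` then `X t k0 j = X t k0 j 0 • ![1,0,0,0] + X t k0 j 1 • ![0,1,0,0]` for all `j`, so
(apply `(M t).mulVec`) `x t k0 j ∈ span {x t k0 j0, x t k0 j1}`; hence `m t > 0` eventually.
`δ t = if 0 < m t then m t else 1`: positive, eventually equal to `m t`, tends to 0.
`GenForm p q` of the family `X t` holds eventually by `INV`.  With `p = r + 1` (obtain `r`; use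
`cases p` / `obtain ⟨r, rfl⟩`) `ZG` gives `X t k0 j 2 / δ t → 0`, `X t k0 j 3 / δ t → 0` for all `j`;
summing the norms over `j`, `m t / δ t → 0`, but it is eventually 1.  Contradiction.

PROOF of `EXC`. The same with `δ t = ε t + m t` (positive as `ε t > 0`, tends to 0,
`‖X t k0 j 2‖ ≤ δ t`), `k0 = 0`, `k1 = 1`, `j0 = 0`, `j1 = 1`; `ZG` with `k = c ≤ r` gives
`c = r + 1 = p`, contradiction.
-/

open Filter Topology

namespace Pool.Agent.H3.GP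

private theorem LIN_m {ι : Type} (U : Ultrafilter ι) {p q : ℕ} (k0 : Fin p)
    (X : ι → Fin p → Fin q → Fin 4 → ℂ) (X0 : Fin p → Fin q → Fin 4 → ℂ)
    (hX : ∀ k j, Tendsto (fun t => X t k j) U (𝓝 (X0 k j)))
    (hX0 : ∀ j, X0 k0 j 2 = 0 ∧ X0 k0 j 3 = 0) :
    Tendsto (fun t => ∑ j, (‖X t k0 j 2‖ + ‖X t k0 j 3‖)) U (𝓝 0) := by
  have h : ∀ j, Tendsto (fun t => ‖X t k0 j 2‖ + ‖X t k0 j 3‖) U
      (𝓝 (‖X0 k0 j 2‖ + ‖X0 k0 j 3‖)) := fun j =>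
    ((tendsto_pi_nhds.1 (hX k0 j) 2).norm).add ((tendsto_pi_nhds.1 (hX k0 j) 3).norm)
  have h2 := tendsto_finset_sum Finset.univ fun j _ => h j
  have h3 : ∑ j, (‖X0 k0 j 2‖ + ‖X0 k0 j 3‖) = 0 := Finset.sum_eq_zero fun j _ => by
    rw [(hX0 j).1, (hX0 j).2, norm_zero, add_zero]
  rwa [h3] at h2

private theorem LIN_le {q : ℕ} (Y : Fin q → Fin 4 → ℂ) (j : Fin q) :
    ‖Y j 2‖ + ‖Y j 3‖ ≤ ∑ j, (‖Y j 2‖ + ‖Y j 3‖) :=
  Finset.single_le_sum (f := fun j => ‖Y j 2‖ + ‖Y j 3‖)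
    (fun j _ => add_nonneg (norm_nonneg _) (norm_nonneg _)) (Finset.mem_univ j)

private theorem LIN_span {q : ℕ} (M : Matrix (Fin 4) (Fin 4) ℂ) (Y y : Fin q → Fin 4 → ℂ)
    (hM : ∀ j, M.mulVec (Y j) = y j) (j0 j1 : Fin q) (h0 : Y j0 = ![1, 0, 0, 0])
    (h1 : Y j1 = ![0, 1, 0, 0]) (j : Fin q) (h2 : Y j 2 = 0) (h3 : Y j 3 = 0) :
    y j ∈ Submodule.span ℂ {y j0, y j1} := by
  have e : Y j = Y j 0 • Y j0 + Y j 1 • Y j1 := by
    rw [h0, h1]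
    funext i
    fin_cases i
    · simp
    · simp
    · simp [h2]
    · simp [h3]
  rw [← hM j, e, Matrix.mulVec_add, Matrix.mulVec_smul, Matrix.mulVec_smul, hM, hM]
  exact Submodule.mem_span_pair.2 ⟨_, _, rfl⟩

private theorem LIN_gen {p q k : ℕ} (M : Matrix (Fin 4) (Fin 4) ℂ) (hM : IsUnit M.det)
    (X x : Fin p → Fin q → Fin 4 → ℂ) (h : ∀ k j, M.mulVec (X k j) = x k j)
    (hG : GenForm k q (fun kj : Fin p × Fin q => x kj.1 kj.2)) :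
    GenForm k q (fun kj : Fin p × Fin q => X kj.1 kj.2) := by
  apply INV k q M hM
  have e : (fun kj : Fin p × Fin q => M.mulVec (X kj.1 kj.2)) = fun kj => x kj.1 kj.2 :=
    funext fun kj => h _ _
  exact e ▸ hG

theorem LIN {ι : Type} (U : Ultrafilter ι) (p q : ℕ) (hp : 2 ≤ p) (hq : 2 ≤ q)
    (x0 : Fin p → Fin q → Fin 4 → ℂ) (h0 : GridVec p q x0)
    (x : ι → Fin p → Fin q → Fin 4 → ℂ)
    (hx : ∀ k j, Tendsto (fun t => x t k j) U (𝓝 (x0 k j)))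
    (hG : ∀ᶠ t in (U : Filter ι), GenForm p q (fun kj : Fin p × Fin q => x t kj.1 kj.2))
    (k0 : Fin p) (j0 j1 : Fin q) (hj : j0 ≠ j1) :
    ∀ᶠ t in (U : Filter ι), ∀ j, x t k0 j ∈ Submodule.span ℂ {x t k0 j0, x t k0 j1} := by
  classical
  by_contra hcon
  rw [← Ultrafilter.eventually_not] at hcon
  obtain ⟨r, rfl⟩ : ∃ r, p = r + 1 := ⟨p - 1, by omega⟩
  obtain ⟨k1, hk⟩ : ∃ k1 : Fin (r + 1), k0 ≠ k1 := by
    haveI : Nontrivial (Fin (r + 1)) := Fin.nontrivial_iff_two_le.2 hp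
    obtain ⟨k1, hk⟩ := exists_ne k0
    exact ⟨k1, hk.symm⟩
  obtain ⟨M, X, X0, η, hMX, hX, hX0, hne, hη, hf, hfd⟩ := ADP U (r + 1) q x0 h0 x hx k0 k1 hk j0 j1 hj
  obtain ⟨m, hm⟩ : ∃ m : ι → ℝ, ∀ t, m t = ∑ j, (‖X t k0 j 2‖ + ‖X t k0 j 3‖) := ⟨_, fun _ => rfl⟩
  have hm0 : Tendsto m U (𝓝 0) := by
    rw [funext hm]
    exact LIN_m U k0 X X0 hX hX0
  have hpos : ∀ᶠ t in (U : Filter ι), 0 < m t := by
    filter_upwards [hcon, hMX] with t h1 h2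
    by_contra h3
    apply h1
    intro j
    have h4 := LIN_le (X t k0) j
    rw [← hm] at h4
    have h5 := norm_nonneg (X t k0 j 2)
    have h6 := norm_nonneg (X t k0 j 3)
    exact LIN_span (M t) (X t k0) (x t k0) (h2.2.1 k0) j0 j1 h2.2.2.1 h2.2.2.2 j
      (norm_eq_zero.1 (by linarith)) (norm_eq_zero.1 (by linarith))
  obtain ⟨δ, hδe⟩ : ∃ δ : ι → ℝ, ∀ t, δ t = if 0 < m t then m t else 1 := ⟨_, fun _ => rfl⟩
  have hδ : ∀ t, 0 < δ t := by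
    intro t
    rw [hδe]
    split_ifs with h
    · exact h
    · exact zero_lt_one
  have hδm : ∀ᶠ t in (U : Filter ι), m t = δ t := by
    filter_upwards [hpos] with t h
    rw [hδe, if_pos h]
  have hδ0 : Tendsto δ U (𝓝 0) := hm0.congr' hδm
  have hb : ∀ᶠ t in (U : Filter ι), ∀ j, ‖X t k0 j 2‖ ≤ δ t ∧ ‖X t k0 j 3‖ ≤ δ t := by
    filter_upwards [hδm] with t h j
    have h4 := LIN_le (X t k0) j
    rw [← hm, h] at h4
    have h5 := norm_nonneg (X t k0 j 2)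
    have h6 := norm_nonneg (X t k0 j 3)
    exact ⟨by linarith, by linarith⟩
  have hG' : ∀ᶠ t in (U : Filter ι),
      GenForm (r + 1) q (fun kj : Fin (r + 1) × Fin q => X t kj.1 kj.2) := by
    filter_upwards [hMX, hG] with t h1 h2
    exact LIN_gen (M t) h1.1 (X t) (x t) h1.2.1 h2
  obtain ⟨-, hlim⟩ := ZG U r q (r + 1) le_rfl hq k0 X X0 δ hδ hδ0 hX hX0 hne η hη hf hfd j0 j1
    (hMX.mono fun t h => h.2.2) hb hG'
  have h1 : Tendsto (fun t => ∑ j, (‖X t k0 j 2 / (δ t : ℂ)‖ + ‖X t k0 j 3 / (δ t : ℂ)‖)) U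
      (𝓝 (∑ _j : Fin q, (‖(0:ℂ)‖ + ‖(0:ℂ)‖))) :=
    tendsto_finset_sum Finset.univ fun j _ => ((hlim j).1.norm).add ((hlim j).2.norm)
  have h2 : (∑ _j : Fin q, (‖(0:ℂ)‖ + ‖(0:ℂ)‖)) = 0 := Finset.sum_eq_zero fun j _ => by
    rw [norm_zero, add_zero]
  rw [h2] at h1
  have h3 : ∀ᶠ t in (U : Filter ι),
      ∑ j, (‖X t k0 j 2 / (δ t : ℂ)‖ + ‖X t k0 j 3 / (δ t : ℂ)‖) = 1 := by
    filter_upwards [hδm] with t h
    have h4 : ∀ j, ‖X t k0 j 2 / (δ t : ℂ)‖ + ‖X t k0 j 3 / (δ t : ℂ)‖ =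
        (‖X t k0 j 2‖ + ‖X t k0 j 3‖) / δ t := by
      intro j
      rw [norm_div, norm_div, Complex.norm_real, Real.norm_of_nonneg (hδ t).le]
      ring
    rw [Finset.sum_congr rfl fun j _ => h4 j, ← Finset.sum_div, ← hm, h, div_self (hδ t).ne']
  have h4 : Tendsto (fun _ : ι => (1:ℝ)) U (𝓝 0) := h1.congr' h3
  exact one_ne_zero (tendsto_nhds_unique tendsto_const_nhds h4)

theorem EXC {ι : Type} (U : Ultrafilter ι) (p q c : ℕ) (hp : 2 ≤ p) (hq : 2 ≤ q) (hc : c < p)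
    (x0 : Fin p → Fin q → Fin 4 → ℂ) (h0 : GridVec p q x0)
    (x : ι → Fin p → Fin q → Fin 4 → ℂ)
    (hx : ∀ k j, Tendsto (fun t => x t k j) U (𝓝 (x0 k j)))
    (ε : ι → ℝ) (hε : ∀ t, 0 < ε t) (hε0 : Tendsto ε U (𝓝 0))
    (hG : ∀ᶠ t in (U : Filter ι), GenForm c q (fun kj : Fin p × Fin q => x t kj.1 kj.2)) :
    False := by
  classical
  obtain ⟨r, rfl⟩ : ∃ r, p = r + 1 := ⟨p - 1, by omega⟩
  obtain ⟨k0, k1, hk⟩ : ∃ k0 k1 : Fin (r + 1), k0 ≠ k1 := by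
    haveI : Nontrivial (Fin (r + 1)) := Fin.nontrivial_iff_two_le.2 hp
    exact exists_pair_ne _
  obtain ⟨j0, j1, hj⟩ : ∃ j0 j1 : Fin q, j0 ≠ j1 := by
    haveI : Nontrivial (Fin q) := Fin.nontrivial_iff_two_le.2 hq
    exact exists_pair_ne _
  obtain ⟨M, X, X0, η, hMX, hX, hX0, hne, hη, hf, hfd⟩ := ADP U (r + 1) q x0 h0 x hx k0 k1 hk j0 j1 hj
  obtain ⟨m, hm⟩ : ∃ m : ι → ℝ, ∀ t, m t = ∑ j, (‖X t k0 j 2‖ + ‖X t k0 j 3‖) := ⟨_, fun _ => rfl⟩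
  have hm0 : Tendsto m U (𝓝 0) := by
    rw [funext hm]
    exact LIN_m U k0 X X0 hX hX0
  have hm1 : ∀ t, 0 ≤ m t := by
    intro t
    rw [hm]
    exact Finset.sum_nonneg fun j _ => add_nonneg (norm_nonneg _) (norm_nonneg _)
  have hδ : ∀ t, 0 < ε t + m t := fun t => add_pos_of_pos_of_nonneg (hε t) (hm1 t)
  have hδ0 : Tendsto (fun t => ε t + m t) U (𝓝 0) := by
    have := hε0.add hm0
    rwa [add_zero] at this
  have hb : ∀ᶠ t in (U : Filter ι), ∀ j, ‖X t k0 j 2‖ ≤ ε t + m t ∧ ‖X t k0 j 3‖ ≤ ε t + m t := by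
    apply Filter.Eventually.of_forall
    intro t j
    have h4 := LIN_le (X t k0) j
    rw [← hm] at h4
    have h5 := norm_nonneg (X t k0 j 2)
    have h6 := norm_nonneg (X t k0 j 3)
    have h7 := hε t
    exact ⟨by linarith, by linarith⟩
  have hG' : ∀ᶠ t in (U : Filter ι),
      GenForm c q (fun kj : Fin (r + 1) × Fin q => X t kj.1 kj.2) := by
    filter_upwards [hMX, hG] with t h1 h2
    exact LIN_gen (M t) h1.1 (X t) (x t) h1.2.1 h2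
  obtain ⟨hc', -⟩ := ZG U r q c hc.le hq k0 X X0 (fun t => ε t + m t) hδ hδ0 hX hX0 hne η hη hf hfd
    j0 j1 (hMX.mono fun t h => h.2.2) hb hG'
  omega

end Pool.Agent.H3.GP
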