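import Mathlib
import Pool.Agent.H3.GP.Defs

/-!
# OPN (MP_87ed0a_ag): general position is open; the number of points

PROOF of `OPN`. For fixed `k k' j j'` the map `x ↦ ![x k j, x k j', x k' j, x k' j']` is continuous
and `{v : Fin 4 → Fin 4 → ℂ | LinearIndependent ℂ v}` is open (`isOpen_setOf_linearIndependent`, or
the determinant is nonzero); finitely many conditions (`Filter.eventually_all`).
PROOF of `CNT`. The map `kj ↦ mk (x kj.1 kj.2)` is injective: two vectors with different `(k, j)`
are linearly independent (if `k ≠ k'` and `j = j'` use `ind` with some other `j'' ≠ j`, `b ≥ 2`; if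
`k = k'`, `j ≠ j'` use some `k'' ≠ k`); all vectors are nonzero; `pts` is the image of
`Finset.univ`.
-/

open Filter Topology

namespace Pool.Agent.H3.GP

theorem OPN (a b : ℕ) (x0 : Fin a → Fin b → Fin 4 → ℂ) (h : GridVec a b x0) :
    ∀ᶠ x in 𝓝 x0, ∀ k k' j j', k ≠ k' → j ≠ j' →
      LinearIndependent ℂ ![x k j, x k j', x k' j, x k' j'] := by
  rw [Filter.eventually_all]
  intro k
  rw [Filter.eventually_all]
  intro k'
  rw [Filter.eventually_all]
  intro j
  rw [Filter.eventually_all]
  intro j'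
  by_cases hk : k = k'
  · exact Filter.Eventually.of_forall fun x h1 => absurd hk h1
  by_cases hj : j = j'
  · exact Filter.Eventually.of_forall fun x _ h1 => absurd hj h1
  have hopen : IsOpen {v : Fin 4 → Fin 4 → ℂ | LinearIndependent ℂ v} :=
    isOpen_setOfPred_linearIndependent
  have hcont : Tendsto (fun x : Fin a → Fin b → Fin 4 → ℂ =>
      ![x k j, x k j', x k' j, x k' j']) (𝓝 x0)
      (𝓝 ![x0 k j, x0 k j', x0 k' j, x0 k' j']) := by
    have h1 : ∀ (k : Fin a) (j : Fin b), Tendsto (fun x : Fin a → Fin b → Fin 4 → ℂ => x k j)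
        (𝓝 x0) (𝓝 (x0 k j)) := fun k j =>
      ((continuous_apply j).comp (continuous_apply k)).tendsto x0
    rw [tendsto_pi_nhds]
    intro i
    fin_cases i
    · exact h1 k j
    · exact h1 k j'
    · exact h1 k' j
    · exact h1 k' j'
  have h2 := hcont.eventually (hopen.mem_nhds (h.ind k k' j j' hk hj))
  exact h2.mono fun x hx _ _ => hx

private theorem OPN_pair (a b : ℕ) (ha : 2 ≤ a) (hb : 2 ≤ b) (x : Fin a → Fin b → Fin 4 → ℂ)
    (h : ∀ k k' j j', k ≠ k' → j ≠ j' →
      LinearIndependent ℂ ![x k j, x k j', x k' j, x k' j'])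
    (k k' : Fin a) (j j' : Fin b) (hne : (k, j) ≠ (k', j')) :
    LinearIndependent ℂ ![x k j, x k' j'] := by
  by_cases hk : k = k'
  · subst hk
    have hj : j ≠ j' := fun h1 => hne (by rw [h1])
    have : Nontrivial (Fin a) := Fin.nontrivial_iff_two_le.2 ha
    obtain ⟨k2, hk2⟩ := exists_ne k
    have h1 := h k k2 j j' hk2.symm hj
    have h2 := h1.comp ![0, 1] (by decide)
    convert h2 using 1
    ext i
    fin_cases i <;> rfl
  · by_cases hj : j = j'
    · subst hj
      have : Nontrivial (Fin b) := Fin.nontrivial_iff_two_le.2 hb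
      obtain ⟨j2, hj2⟩ := exists_ne j
      have h1 := h k k' j j2 hk hj2.symm
      have h2 := h1.comp ![0, 2] (by decide)
      convert h2 using 1
      ext i
      fin_cases i <;> rfl
    · have h1 := h k k' j j' hk hj
      have h2 := h1.comp ![0, 3] (by decide)
      convert h2 using 1
      ext i
      fin_cases i <;> rfl

theorem CNT (a b : ℕ) (ha : 2 ≤ a) (hb : 2 ≤ b) (x : Fin a → Fin b → Fin 4 → ℂ)
    (h : ∀ k k' j j', k ≠ k' → j ≠ j' →
      LinearIndependent ℂ ![x k j, x k j', x k' j, x k' j']) :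
    (pts (fun kj : Fin a × Fin b => x kj.1 kj.2)).ncard = a * b := by
  have hne : ∀ kj : Fin a × Fin b, x kj.1 kj.2 ≠ 0 := by
    intro kj
    have : Nontrivial (Fin a) := Fin.nontrivial_iff_two_le.2 ha
    obtain ⟨k2, hk2⟩ := exists_ne kj.1
    have h1 := OPN_pair a b ha hb x h kj.1 k2 kj.2 kj.2 (fun h2 => hk2 (Prod.ext_iff.1 h2).1.symm)
    exact h1.ne_zero 0
  have hset : pts (fun kj : Fin a × Fin b => x kj.1 kj.2) =
      Set.range (fun kj : Fin a × Fin b => Projectivization.mk ℂ (x kj.1 kj.2) (hne kj)) := by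
    ext p
    constructor
    · rintro ⟨i, hi, rfl⟩
      exact ⟨i, rfl⟩
    · rintro ⟨i, rfl⟩
      exact ⟨i, hne i, rfl⟩
  have hinj : Function.Injective
      (fun kj : Fin a × Fin b => Projectivization.mk ℂ (x kj.1 kj.2) (hne kj)) := by
    intro p q hpq
    by_contra hne2
    have h1 := OPN_pair a b ha hb x h p.1 q.1 p.2 q.2 (by simpa using hne2)
    have h2 : Projectivization.mk ℂ (x p.1 p.2) (hne p) =
        Projectivization.mk ℂ (x q.1 q.2) (hne q) := hpq
    rw [Projectivization.mk_eq_mk_iff'] at h2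
    obtain ⟨c, hc⟩ := h2
    rw [LinearIndependent.pair_iff] at h1
    have h3 := h1 1 (-c) (by rw [one_smul, neg_smul, hc, add_neg_cancel])
    exact one_ne_zero h3.1
  rw [hset, ← Set.image_univ, Set.ncard_image_of_injective _ hinj, Set.ncard_univ]
  simp

end Pool.Agent.H3.GP
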