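import Mathlib
import Pool.Agent.H3.GP.Defs

/-!
# UNP (MP_87ed0a_ag): unpacking a grid

PROOF. Take `A, B` from `h`.  For `(k, j)` the subspace `A k ⊓ B j` is a line `span {v}`, the point
`p = mk v` satisfies `p.submodule = A k ⊓ B j`, so `p ∈ pts z`: there is `e (k, j) : Fin (a * b)`
with `z (e (k, j)) ≠ 0` and `span {z (e (k, j))} = A k ⊓ B j`.  `e` is injective: if
`A k ⊓ B j = A k' ⊓ B j' ≠ ⊥` then `A k ⊓ A k' ≠ ⊥` so `k = k'`, and `j = j'`.  Cardinalities: `e`
is bijective (`Fintype.bijective_iff_injective_and_card`), get the equivalence.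
`GridVec`: `ind`: for `k ≠ k'`, `j ≠ j'` the vectors `x k j, x k j'` lie in `A k`, are nonzero and
lie in `B j`, `B j'` with `B j ⊓ B j' = ⊥`, so they are independent; the same for `k'`; and
`A k ⊓ A k' = ⊥`, so the four vectors are independent.  `col`: `x k j₀, x k j₁` are two independent
vectors of the 2-dimensional `A k`, so they span it and `x k j ∈ A k`.  `row`: the same in `B j`
(`a ≥ 2` is not needed).
-/

namespace Pool.Agent.H3.GP

private theorem UNP_pair {S T : Submodule ℂ (Fin 4 → ℂ)} (hST : S ⊓ T = ⊥) {v w : Fin 4 → ℂ}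
    (hv : v ∈ S) (hw : w ∈ T) (h : v + w = 0) : v = 0 ∧ w = 0 := by
  have h1 : v = -w := eq_neg_of_add_eq_zero_left h
  have h2 : v ∈ S ⊓ T := ⟨hv, by rw [h1]; exact T.neg_mem hw⟩
  rw [hST, Submodule.mem_bot] at h2
  refine ⟨h2, ?_⟩
  rwa [h2, zero_add] at h

private theorem UNP_indep {S T : Submodule ℂ (Fin 4 → ℂ)} (hST : S ⊓ T = ⊥) {v w : Fin 4 → ℂ}
    (hv : v ∈ S) (hw : w ∈ T) (hv0 : v ≠ 0) (hw0 : w ≠ 0) (s t : ℂ) (h : s • v + t • w = 0) :
    s = 0 ∧ t = 0 := by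
  obtain ⟨h1, h2⟩ := UNP_pair hST (S.smul_mem s hv) (T.smul_mem t hw) h
  exact ⟨(smul_eq_zero.1 h1).resolve_right hv0, (smul_eq_zero.1 h2).resolve_right hw0⟩

private theorem UNP_span {S : Submodule ℂ (Fin 4 → ℂ)} (hS : Module.finrank ℂ S = 2)
    {v w x : Fin 4 → ℂ} (hv : v ∈ S) (hw : w ∈ S) (hx : x ∈ S)
    (hi : ∀ s t : ℂ, s • v + t • w = 0 → s = 0 ∧ t = 0) :
    x ∈ Submodule.span ℂ {v, w} := by
  have h1 : LinearIndependent ℂ ![v, w] := LinearIndependent.pair_iff.2 hi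
  have h2 := finrank_span_eq_card h1
  have h3 : Set.range ![v, w] = {v, w} := by
    simp [Matrix.range_cons, Matrix.range_empty, Set.pair_comm]
  rw [h3, Fintype.card_fin] at h2
  have h4 : Submodule.span ℂ {v, w} ≤ S := by
    rw [Submodule.span_le]
    rintro y (rfl | rfl)
    · exact hv
    · exact hw
  have h5 : Submodule.span ℂ {v, w} = S :=
    Submodule.eq_of_le_of_finrank_eq h4 (h2.trans hS.symm)
  rw [h5]
  exact hx

theorem UNP (a b : ℕ) (z : Fin (a * b) → Fin 4 → ℂ) (h : IsGrid a b (pts z)) :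
    ∃ e : Fin a × Fin b ≃ Fin (a * b), GridVec a b (fun k j => z (e (k, j))) := by
  classical
  obtain ⟨ha, hab, A, B, hA, hB, sA, sB, hAB, hZ⟩ := h
  have hex : ∀ kj : Fin a × Fin b, ∃ i : Fin (a * b), z i ≠ 0 ∧
      Submodule.span ℂ {z i} = A kj.1 ⊓ B kj.2 := by
    intro kj
    have h1 : Projectivization.mk'' (A kj.1 ⊓ B kj.2) (hAB kj.1 kj.2) ∈ pts z := by
      rw [hZ]
      exact ⟨kj.1, kj.2, Projectivization.submodule_mk'' _ _⟩
    obtain ⟨i, hi, h2⟩ := h1
    refine ⟨i, hi, ?_⟩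
    have h3 := congrArg Projectivization.submodule h2
    rw [Projectivization.submodule_mk'', Projectivization.submodule_mk] at h3
    exact h3.symm
  choose e0 he1 he2 using hex
  have hmemA : ∀ kj, z (e0 kj) ∈ A kj.1 := fun kj => by
    have h1 : z (e0 kj) ∈ Submodule.span ℂ {z (e0 kj)} := Submodule.mem_span_singleton_self _
    rw [he2] at h1
    exact h1.1
  have hmemB : ∀ kj, z (e0 kj) ∈ B kj.2 := fun kj => by
    have h1 : z (e0 kj) ∈ Submodule.span ℂ {z (e0 kj)} := Submodule.mem_span_singleton_self _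
    rw [he2] at h1
    exact h1.2
  have hinj : Function.Injective e0 := by
    intro x y hxy
    have h1 : x.1 = y.1 := by
      by_contra hne
      have h2 : z (e0 x) ∈ A x.1 ⊓ A y.1 := ⟨hmemA x, by rw [hxy]; exact hmemA y⟩
      rw [sA _ _ hne, Submodule.mem_bot] at h2
      exact he1 x h2
    have h2 : x.2 = y.2 := by
      by_contra hne
      have h2 : z (e0 x) ∈ B x.2 ⊓ B y.2 := ⟨hmemB x, by rw [hxy]; exact hmemB y⟩
      rw [sB _ _ hne, Submodule.mem_bot] at h2
      exact he1 x h2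
    exact Prod.ext h1 h2
  have hbij : Function.Bijective e0 := by
    rw [Fintype.bijective_iff_injective_and_card]
    refine ⟨hinj, ?_⟩
    rw [Fintype.card_prod, Fintype.card_fin, Fintype.card_fin, Fintype.card_fin]
  refine ⟨Equiv.ofBijective e0 hbij, ?_, ?_, ?_⟩
  · intro k k' j j' hk hj
    rw [Fintype.linearIndependent_iff]
    intro g hg
    simp only [Equiv.ofBijective_apply, Fin.sum_univ_four, Matrix.cons_val_zero,
      Matrix.cons_val_one, Matrix.cons_val_two, Matrix.cons_val_three] at hg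
    have h1 : (g 0 • z (e0 (k, j)) + g 1 • z (e0 (k, j'))) +
        (g 2 • z (e0 (k', j)) + g 3 • z (e0 (k', j'))) = 0 := by
      rw [← hg]
      abel
    obtain ⟨h2, h3⟩ := UNP_pair (sA k k' hk)
      ((A k).add_mem ((A k).smul_mem _ (hmemA (k, j))) ((A k).smul_mem _ (hmemA (k, j'))))
      ((A k').add_mem ((A k').smul_mem _ (hmemA (k', j))) ((A k').smul_mem _ (hmemA (k', j')))) h1
    obtain ⟨g0, g1⟩ := UNP_indep (sB j j' hj) (hmemB (k, j)) (hmemB (k, j')) (he1 _) (he1 _) _ _ h2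
    obtain ⟨g2, g3⟩ := UNP_indep (sB j j' hj) (hmemB (k', j)) (hmemB (k', j')) (he1 _) (he1 _) _ _
      h3
    intro i
    fin_cases i
    · exact g0
    · exact g1
    · exact g2
    · exact g3
  · intro k j₀ j₁ j hne
    exact UNP_span (hA k) (hmemA (k, j₀)) (hmemA (k, j₁)) (hmemA (k, j))
      (UNP_indep (sB j₀ j₁ hne) (hmemB (k, j₀)) (hmemB (k, j₁)) (he1 _) (he1 _))
  · intro j k₀ k₁ k hne
    exact UNP_span (hB j) (hmemB (k₀, j)) (hmemB (k₁, j)) (hmemB (k, j))
      (UNP_indep (sA k₀ k₁ hne) (hmemA (k₀, j)) (hmemA (k₁, j)) (he1 _) (he1 _))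

end Pool.Agent.H3.GP
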