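import Mathlib
import Pool.Agent.H3.GP.Defs
import Pool.Agent.H3.GP.LIN
import Pool.Agent.H3.GP.GEO
import Pool.Agent.H3.GP.GRD
import Pool.Agent.H3.GP.UNP
import Pool.Agent.H3.GP.OPN

/-!
# FIN (MP_87ed0a_ag): assembly of the theorem on geproci sets near a grid
-/

open Filter Topology

namespace Pool.Agent.H3.GP

private theorem FIN_transpose {p q : ℕ} {x : Fin p → Fin q → Fin 4 → ℂ} (h : GridVec p q x) :
    GridVec q p (fun j k => x k j) where
  ind := by
    intro j j' k k' hj hk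
    have h1 := h.ind k k' j j' hk hj
    have h2 := h1.comp ![0, 2, 1, 3] (by decide)
    convert h2 using 1
    ext i
    fin_cases i <;> rfl
  col := fun j k₀ k₁ k hk => h.row j k₀ k₁ k hk
  row := fun k j₀ j₁ j hj => h.col k j₀ j₁ j hj

private theorem FIN_sub {k q : ℕ} {J K : Type} {x : J → Fin 4 → ℂ} (h : GenForm k q x)
    (e : K → J) : GenForm k q (fun i => x (e i)) := by
  obtain ⟨D, hD, h⟩ := h
  refine ⟨D, hD, fun P hP π hπ => ?_⟩
  obtain ⟨f, hf0, hf1, hf2, hf3⟩ := h P hP π hπ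
  exact ⟨f, hf0, hf1, hf2, fun j => hf3 (e j)⟩

private theorem FIN_smaller (a b : ℕ) (ha : 2 ≤ a) (hab : a ≤ b) (z₀ : Fin (a * b) → Fin 4 → ℂ)
    (e : Fin a × Fin b ≃ Fin (a * b)) (h0 : GridVec a b (fun k j => z₀ (e (k, j))))
    (c d : ℕ) (hc : c < a) : ∀ᶠ z in 𝓝 z₀, ¬ IsGeproci c d (pts z) := by
  by_contra hcon
  rw [← Filter.not_frequently, not_not] at hcon
  obtain ⟨s, hs, hs2⟩ := Filter.exists_seq_forall_of_frequently hcon
  set U : Ultrafilter ℕ := Filter.hyperfilter ℕ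
  have hU : (U : Filter ℕ) ≤ atTop := Nat.hyperfilter_le_atTop
  have hsU : Tendsto s (U : Filter ℕ) (𝓝 z₀) := hs.mono_left hU
  refine EXC U a b c ha (ha.trans hab) hc (fun k j => z₀ (e (k, j))) h0
    (fun t k j => s t (e (k, j))) (fun k j => ?_) (fun t => 1 / ((t : ℝ) + 1))
    (fun t => by positivity) (tendsto_one_div_add_atTop_nhds_zero_nat.mono_left hU) ?_
  · exact (tendsto_pi_nhds.1 hsU) (e (k, j))
  · refine Filter.Eventually.of_forall fun t => ?_
    have h1 := (GEO c d (s t) (hs2 t)).1 b (hc.trans_le hab)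
    exact FIN_sub h1 (fun kj : Fin a × Fin b => e (kj.1, kj.2))

private theorem FIN_col (a b p q : ℕ) (hp : 2 ≤ p) (hq : 2 ≤ q)
    (z₀ : Fin (a * b) → Fin 4 → ℂ) (e : Fin p → Fin q → Fin (a * b))
    (h0 : GridVec p q (fun k j => z₀ (e k j)))
    (hG : ∀ z : Fin (a * b) → Fin 4 → ℂ, IsGeproci a b (pts z) → GenForm p q z) :
    ∀ᶠ z in 𝓝 z₀, IsGeproci a b (pts z) → ∀ k0 j0 j1 j, j0 ≠ j1 →
      z (e k0 j) ∈ Submodule.span ℂ {z (e k0 j0), z (e k0 j1)} := by
  by_contra hcon
  rw [Filter.not_eventually] at hcon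
  obtain ⟨s, hs, hs2⟩ := Filter.exists_seq_forall_of_frequently hcon
  set U : Ultrafilter ℕ := Filter.hyperfilter ℕ
  have hU : (U : Filter ℕ) ≤ atTop := Nat.hyperfilter_le_atTop
  have hsU : Tendsto s (U : Filter ℕ) (𝓝 z₀) := hs.mono_left hU
  have hall : ∀ᶠ t in (U : Filter ℕ), ∀ k0 : Fin p, ∀ j0 j1 : Fin q, j0 ≠ j1 → ∀ j : Fin q,
      s t (e k0 j) ∈ Submodule.span ℂ {s t (e k0 j0), s t (e k0 j1)} := by
    rw [Filter.eventually_all]
    intro k0
    rw [Filter.eventually_all]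
    intro j0
    rw [Filter.eventually_all]
    intro j1
    by_cases hj : j0 = j1
    · exact Filter.Eventually.of_forall fun t h => absurd hj h
    · refine (LIN U p q hp hq (fun k j => z₀ (e k j)) h0 (fun t k j => s t (e k j))
        (fun k j => (tendsto_pi_nhds.1 hsU) (e k j)) ?_ k0 j0 j1 hj).mono fun t ht _ => ht
      refine Filter.Eventually.of_forall fun t => ?_
      have h1 : IsGeproci a b (pts (s t)) := by
        by_contra hno
        exact hs2 t fun h => absurd h hno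
      exact FIN_sub (hG (s t) h1) (fun kj : Fin p × Fin q => e kj.1 kj.2)
  obtain ⟨t, ht⟩ := hall.exists
  exact hs2 t fun _ k0 j0 j1 j hj => ht k0 j0 j1 hj j

/-- Near an `(a, b)`-grid every geproci set is an `(a, b)`-grid or is `(c, d)`-geproci with
`a < c ≤ d < b`, `c d = a b`. -/
theorem FIN (a b : ℕ) (z₀ : Fin (a * b) → Fin 4 → ℂ) (hgrid : IsGrid a b (pts z₀)) :
    ∀ᶠ z in 𝓝 z₀, ∀ c d, IsGeproci c d (pts z) →
      IsGrid a b (pts z) ∨ (a < c ∧ c ≤ d ∧ d < b ∧ c * d = a * b) := by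
  have ha : 2 ≤ a := hgrid.1
  have hab : a ≤ b := hgrid.2.1
  have hb : 2 ≤ b := ha.trans hab
  obtain ⟨e, h0⟩ := UNP a b z₀ hgrid
  -- openness of general position
  have hopen : ∀ᶠ z in 𝓝 z₀, ∀ k k' : Fin a, ∀ j j' : Fin b, k ≠ k' → j ≠ j' →
      LinearIndependent ℂ ![z (e (k, j)), z (e (k, j')), z (e (k', j)), z (e (k', j'))] := by
    have hcont : Tendsto (fun z : Fin (a * b) → Fin 4 → ℂ => fun (k : Fin a) (j : Fin b) =>
        z (e (k, j))) (𝓝 z₀) (𝓝 (fun k j => z₀ (e (k, j)))) := by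
      rw [tendsto_pi_nhds]
      intro k
      rw [tendsto_pi_nhds]
      intro j
      exact (continuous_apply (e (k, j))).tendsto z₀
    exact hcont.eventually (OPN a b _ h0)
  -- smaller degrees
  have hsmall : ∀ᶠ z in 𝓝 z₀, ∀ c ∈ Finset.range a, ∀ d ∈ Finset.range (a * b + 1),
      ¬ IsGeproci c d (pts z) := by
    rw [Filter.eventually_all_finset]
    intro c hc
    rw [Filter.eventually_all_finset]
    intro d _
    exact FIN_smaller a b ha hab z₀ e h0 c d (Finset.mem_range.1 hc)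
  -- columns
  have hcol := FIN_col a b a b ha hb z₀ (fun k j => e (k, j)) h0 (fun z hz => by
    rcases hab.eq_or_lt with h | h
    · subst h
      exact (GEO a a z hz).2
    · exact (GEO a b z hz).1 b h)
  -- rows
  have hrow := FIN_col a b b a hb ha z₀ (fun j k => e (k, j)) (FIN_transpose h0)
    (fun z hz => (GEO a b z hz).2)
  filter_upwards [hopen, hsmall, hcol, hrow] with z h1 h2 h3 h4 c d hcd
  have hpts : pts z = pts (fun kj : Fin a × Fin b => z (e (kj.1, kj.2))) := by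
    ext p
    constructor
    · rintro ⟨i, hi, rfl⟩
      refine ⟨e.symm i, ?_, ?_⟩
      · simpa using hi
      · simp
    · rintro ⟨kj, hi, rfl⟩
      exact ⟨e (kj.1, kj.2), hi, rfl⟩
  have hcard : (pts z).ncard = a * b := by
    rw [hpts]
    exact CNT a b ha hb (fun k j => z (e (k, j))) h1
  obtain ⟨hc1, hcd1, -, hcd2, -⟩ := id hcd
  have hmul : c * d = a * b := by rw [← hcd2, hcard]
  rcases lt_trichotomy c a with hlt | heq | hgt
  · exfalso
    refine h2 c (Finset.mem_range.2 hlt) d (Finset.mem_range.2 ?_) hcd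
    nlinarith
  · left
    subst heq
    have hd : d = b := Nat.eq_of_mul_eq_mul_left (by omega) hmul
    subst hd
    rw [hpts]
    exact GRD c d ha hab (fun k j => z (e (k, j)))
      { ind := h1
        col := fun k j₀ j₁ j hj => h3 hcd k j₀ j₁ j hj
        row := fun j k₀ k₁ k hk => h4 hcd j k₀ k₁ k hk }
  · right
    refine ⟨hgt, hcd1, ?_, hmul⟩
    by_contra hdb
    push Not at hdb
    have : a * b < c * d := by
      calc a * b < c * b := Nat.mul_lt_mul_of_pos_right hgt (by omega)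
        _ ≤ c * d := Nat.mul_le_mul_left c hdb
    omega

end Pool.Agent.H3.GP
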